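import Mathlib

/-!
# Two abstract lemmas

* `energy`: in a real inner product space a sequence of `2 ^ m` vectors of norm at most `R` with
  `B (z i) (z j) ≥ δ` for all `i < j`, where `B` is an alternating form with `|B v w| ≤ ‖v‖ ‖w‖`,
  satisfies `m δ² ≤ 4 R⁴`.
* `chain_of_tournament`: a tournament with `2 ^ k` vertices contains a transitive sequence of
  `k + 1` vertices.
-/

set_option autoImplicit false

open Finset

namespace Pool.Agent.TH161.LW

section Energy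

variable {V : Type*} [NormedAddCommGroup V] [InnerProductSpace ℝ V]

/-- the average of the first `2 ^ m` vectors -/
noncomputable def av (z : ℕ → V) (m : ℕ) : V := ((2 : ℝ) ^ m)⁻¹ • ∑ i ∈ range (2 ^ m), z i

lemma av_succ (z : ℕ → V) (m : ℕ) :
    av z (m + 1) = (2 : ℝ)⁻¹ • (av z m + av (fun i => z (i + 2 ^ m)) m) := by
  unfold av
  have h2 : (2 : ℕ) ^ (m + 1) = 2 ^ m + 2 ^ m := by ring
  rw [h2, Finset.sum_range_add, ← smul_add, smul_smul]
  congr 1
  · rw [pow_succ, mul_inv]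
    ring
  · congr 1
    refine Finset.sum_congr rfl fun i _ => ?_
    rw [add_comm]

lemma B_av (B : V →ₗ[ℝ] V →ₗ[ℝ] ℝ) (δ : ℝ) (x y : ℕ → V) (m : ℕ)
    (h : ∀ i < 2 ^ m, ∀ j < 2 ^ m, δ ≤ B (x i) (y j)) : δ ≤ B (av x m) (av y m) := by
  unfold av
  have hp : (0 : ℝ) < (2 : ℝ) ^ m := by positivity
  have hsum : B (∑ i ∈ range (2 ^ m), x i) (∑ j ∈ range (2 ^ m), y j) =
      ∑ i ∈ range (2 ^ m), ∑ j ∈ range (2 ^ m), B (x i) (y j) := by
    have h1 : B (∑ i ∈ range (2 ^ m), x i) = ∑ i ∈ range (2 ^ m), B (x i) := map_sum B _ _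
    rw [h1, LinearMap.sum_apply]
    exact Finset.sum_congr rfl fun i _ => map_sum _ _ _
  rw [map_smul, map_smul, LinearMap.smul_apply, hsum]
  have hle : ∑ i ∈ range (2 ^ m), ∑ j ∈ range (2 ^ m), δ ≤
      ∑ i ∈ range (2 ^ m), ∑ j ∈ range (2 ^ m), B (x i) (y j) :=
    Finset.sum_le_sum fun i hi => Finset.sum_le_sum fun j hj =>
      h i (Finset.mem_range.mp hi) j (Finset.mem_range.mp hj)
  simp only [Finset.sum_const, Finset.card_range, nsmul_eq_mul] at hle
  push_cast at hle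
  rw [smul_eq_mul, smul_eq_mul]
  calc δ = ((2 : ℝ) ^ m)⁻¹ * (((2 : ℝ) ^ m)⁻¹ * ((2 : ℝ) ^ m * ((2 : ℝ) ^ m * δ))) := by
        field_simp
    _ ≤ _ := by gcongr

theorem energy_aux (B : V →ₗ[ℝ] V →ₗ[ℝ] ℝ) (hB : ∀ v w, |B v w| ≤ ‖v‖ * ‖w‖)
    (hB0 : ∀ v, B v v = 0) (R δ : ℝ) (hR : 0 < R) (hδ : 0 < δ) (m : ℕ) :
    ∀ z : ℕ → V, (∀ i < 2 ^ m, ‖z i‖ ≤ R) →
      (∀ i j, i < j → j < 2 ^ m → δ ≤ B (z i) (z j)) →
      ‖av z m‖ ^ 2 ≤ R ^ 2 - m * (δ ^ 2 / (4 * R ^ 2)) := by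
  induction m with
  | zero =>
    intro z hz _
    have : av z 0 = z 0 := by simp [av]
    rw [this]
    have h0 := hz 0 (by simp)
    have := norm_nonneg (z 0)
    simp only [Nat.cast_zero, zero_mul, sub_zero]
    exact pow_le_pow_left₀ this h0 2
  | succ m ih =>
    intro z hz h
    have h2 : (2 : ℕ) ^ (m + 1) = 2 ^ m + 2 ^ m := by ring
    set x := av z m with hx
    set y := av (fun i => z (i + 2 ^ m)) m with hy
    have hc : 0 < δ ^ 2 / (4 * R ^ 2) := by positivity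
    have ihx : ‖x‖ ^ 2 ≤ R ^ 2 - m * (δ ^ 2 / (4 * R ^ 2)) :=
      ih z (fun i hi => hz i (by omega)) (fun i j hij hj => h i j hij (by omega))
    have ihy : ‖y‖ ^ 2 ≤ R ^ 2 - m * (δ ^ 2 / (4 * R ^ 2)) :=
      ih _ (fun i hi => hz _ (by omega)) (fun i j hij hj => h _ _ (by omega) (by omega))
    have hxy : δ ≤ B x y := B_av B δ _ _ m fun i hi j hj => h i (j + 2 ^ m) (by omega) (by omega)
    have hxR : ‖x‖ ≤ R := by
      have : ‖x‖ ^ 2 ≤ R ^ 2 := by
        have : (0 : ℝ) ≤ m * (δ ^ 2 / (4 * R ^ 2)) := by positivity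
        linarith
      exact (pow_le_pow_iff_left₀ (norm_nonneg _) hR.le (by norm_num)).mp this
    have h3 : B x y = B x (y - x) := by rw [map_sub, hB0, sub_zero]
    have h4 : δ ≤ R * ‖y - x‖ := by
      calc δ ≤ B x y := hxy
        _ = B x (y - x) := h3
        _ ≤ |B x (y - x)| := le_abs_self _
        _ ≤ ‖x‖ * ‖y - x‖ := hB _ _
        _ ≤ R * ‖y - x‖ := by gcongr
    have h5 : δ ^ 2 / R ^ 2 ≤ ‖y - x‖ ^ 2 := by
      rw [div_le_iff₀ (by positivity)]
      calc δ ^ 2 ≤ (R * ‖y - x‖) ^ 2 := pow_le_pow_left₀ hδ.le h4 2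
        _ = _ := by ring
    have h6 : ‖av z (m + 1)‖ ^ 2 = (‖x‖ ^ 2 + ‖y‖ ^ 2) / 2 - ‖y - x‖ ^ 2 / 4 := by
      rw [av_succ, norm_smul, mul_pow, ← hx, ← hy]
      have hpar := parallelogram_law_with_norm ℝ y x
      have : ‖y + x‖ * ‖y + x‖ = ‖x + y‖ ^ 2 := by rw [add_comm y x]; ring
      rw [Real.norm_of_nonneg (by norm_num : (0 : ℝ) ≤ 2⁻¹)]
      nlinarith [hpar, this]
    rw [h6]
    push_cast
    have h7 : δ ^ 2 / (4 * R ^ 2) = (δ ^ 2 / R ^ 2) / 4 := by
      field_simp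
    rw [h7] at ihx ihy ⊢
    linarith

theorem energy (B : V →ₗ[ℝ] V →ₗ[ℝ] ℝ) (hB : ∀ v w, |B v w| ≤ ‖v‖ * ‖w‖)
    (hB0 : ∀ v, B v v = 0) (R δ : ℝ) (hR : 0 < R) (hδ : 0 < δ) (m : ℕ)
    (z : ℕ → V) (hz : ∀ i < 2 ^ m, ‖z i‖ ≤ R)
    (h : ∀ i j, i < j → j < 2 ^ m → δ ≤ B (z i) (z j)) :
    (m : ℝ) * δ ^ 2 ≤ 4 * (R ^ 2) ^ 2 := by
  have h1 := energy_aux B hB hB0 R δ hR hδ m z hz h
  have h2 : (0 : ℝ) ≤ ‖av z m‖ ^ 2 := by positivity
  have h3 : (m : ℝ) * (δ ^ 2 / (4 * R ^ 2)) ≤ R ^ 2 := by linarith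
  rw [← mul_div_assoc, div_le_iff₀ (by positivity)] at h3
  linarith

end Energy

theorem chain_of_tournament {β : Type*} [DecidableEq β] (r : β → β → Prop) (k : ℕ) :
    ∀ S : Finset β, (∀ x ∈ S, ∀ y ∈ S, x ≠ y → r x y ∨ r y x) → 2 ^ k ≤ S.card →
      ∃ z : ℕ → β, (∀ i ≤ k, z i ∈ S) ∧ ∀ i j, i < j → j ≤ k → r (z i) (z j) := by
  classical
  induction k with
  | zero =>
    intro S _ hc
    obtain ⟨v, hv⟩ := Finset.card_pos.mp (by omega : 0 < S.card)
    exact ⟨fun _ => v, fun _ _ => hv, fun i j hij hj => by omega⟩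
  | succ k ih =>
    intro S hS hc
    have h2 : (2 : ℕ) ^ (k + 1) = 2 ^ k + 2 ^ k := by ring
    have hpos : 0 < 2 ^ k := by positivity
    obtain ⟨v, hv⟩ := Finset.card_pos.mp (by omega : 0 < S.card)
    set S' := S.erase v with hS'
    have hcS' : S'.card = S.card - 1 := Finset.card_erase_of_mem hv
    set O := S'.filter (fun y => r v y) with hO
    set I := S'.filter (fun y => r y v) with hI
    have hcov : S' ⊆ O ∪ I := by
      intro y hy
      have hy' := Finset.mem_erase.mp hy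
      rcases hS v hv y hy'.2 (Ne.symm hy'.1) with h | h
      · exact Finset.mem_union_left _ (Finset.mem_filter.mpr ⟨hy, h⟩)
      · exact Finset.mem_union_right _ (Finset.mem_filter.mpr ⟨hy, h⟩)
    have hcard : S'.card ≤ O.card + I.card :=
      (Finset.card_le_card hcov).trans (Finset.card_union_le _ _)
    have hOS : O ⊆ S := (Finset.filter_subset _ _).trans (Finset.erase_subset _ _)
    have hIS : I ⊆ S := (Finset.filter_subset _ _).trans (Finset.erase_subset _ _)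
    by_cases hcase : 2 ^ k ≤ O.card
    · obtain ⟨z, hz1, hz2⟩ := ih O (fun x hx y hy => hS x (hOS hx) y (hOS hy)) hcase
      refine ⟨fun i => if i = 0 then v else z (i - 1), ?_, ?_⟩
      · intro i hi
        by_cases h0 : i = 0
        · simp [h0, hv]
        · simp only [h0, if_false]
          exact hOS (hz1 _ (by omega))
      · intro i j hij hj
        have hj0 : j ≠ 0 := by omega
        simp only [hj0, if_false]
        by_cases h0 : i = 0
        · simp only [h0, if_true]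
          exact (Finset.mem_filter.mp (hz1 (j - 1) (by omega))).2
        · simp only [h0, if_false]
          exact hz2 _ _ (by omega) (by omega)
    · have hI' : 2 ^ k ≤ I.card := by omega
      obtain ⟨z, hz1, hz2⟩ := ih I (fun x hx y hy => hS x (hIS hx) y (hIS hy)) hI'
      refine ⟨fun i => if i ≤ k then z i else v, ?_, ?_⟩
      · intro i hi
        by_cases h0 : i ≤ k
        · simp only [h0, if_true]
          exact hIS (hz1 _ h0)
        · simp [h0, hv]
      · intro i j hij hj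
        by_cases h0 : j ≤ k
        · have h1 : i ≤ k := by omega
          simp only [h0, h1, if_true]
          exact hz2 _ _ hij h0
        · have h1 : i ≤ k := by omega
          simp only [h0, h1, if_true, if_false]
          exact (Finset.mem_filter.mp (hz1 i h1)).2

end Pool.Agent.TH161.LW
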