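import Mathlib
import Pool.Agent.H34.L.TH161.LW.Energy

/-!
# A quantitative form of Komlós' pigeonhole principle

`c x` are random variables with values in `{0, …, 2 ^ J - 1}` on a finite probability space `Ω`.
If `P (c (z i) < c (z j)) - P (c (z j) < c (z i)) ≥ δ` for all `i < j < 2 ^ m`, then
`m δ² ≤ 4 J²`.
-/

set_option autoImplicit false

open Finset

namespace Pool.Agent.TH161.LW

/-- sign of the comparison -/
noncomputable def sgn (u v : ℕ) : ℝ := if u < v then 1 else if v < u then -1 else 0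

/-- the part of the sign seen by one binary digit -/
noncomputable def tdig (u v : ℕ) : ℝ := if u / 2 = v / 2 then sgn u v else 0

lemma sgn_eq (J : ℕ) : ∀ u v : ℕ, u < 2 ^ J → v < 2 ^ J →
    sgn u v = ∑ j ∈ range J, tdig (u / 2 ^ j) (v / 2 ^ j) := by
  induction J with
  | zero =>
    intro u v hu hv
    have hu' : u = 0 := by simpa using hu
    have hv' : v = 0 := by simpa using hv
    simp [hu', hv', sgn]
  | succ J ih =>
    intro u v hu hv
    rw [Finset.sum_range_succ']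
    have h1 : ∀ j, tdig (u / 2 ^ (j + 1)) (v / 2 ^ (j + 1)) =
        tdig ((u / 2) / 2 ^ j) ((v / 2) / 2 ^ j) := by
      intro j
      rw [pow_succ', Nat.div_div_eq_div_mul, Nat.div_div_eq_div_mul]
    simp only [h1, pow_zero, Nat.div_one]
    have h2 : (2 : ℕ) ^ (J + 1) = 2 * 2 ^ J := by ring
    rw [← ih (u / 2) (v / 2) (by omega) (by omega)]
    unfold tdig sgn
    by_cases h : u / 2 = v / 2
    · simp [h]
    · rcases lt_or_gt_of_ne h with h' | h'
      · have : u < v := by omega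
        simp [h, h', this]
      · have h3 : v < u := by omega
        have h4 : ¬ u < v := by omega
        have h5 : ¬ u / 2 < v / 2 := by omega
        simp [h, h', h3, h4, h5]

section

variable {Ω β : Type*} [Fintype Ω]

/-- index set -/
abbrev Idx (Ω : Type*) (J : ℕ) := Ω × Fin J × Fin (2 ^ J) × Bool

/-- sibling -/
def sib (Ω : Type*) (J : ℕ) : Idx Ω J ≃ Idx Ω J :=
  (Equiv.refl Ω).prodCongr ((Equiv.refl (Fin J)).prodCongr
    ((Equiv.refl (Fin (2 ^ J))).prodCongr Equiv.boolNot))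

/-- sign of an index -/
def sg {Ω : Type*} {J : ℕ} (i : Idx Ω J) : ℝ := if i.2.2.2 then -1 else 1

lemma sg_sib {Ω : Type*} {J : ℕ} (i : Idx Ω J) : sg (sib Ω J i) = - sg i := by
  obtain ⟨a, b, c, d⟩ := i
  cases d <;> simp [sg, sib]

lemma sib_sib {Ω : Type*} {J : ℕ} (i : Idx Ω J) : sib Ω J (sib Ω J i) = i := by
  obtain ⟨a, b, c, d⟩ := i
  cases d <;> simp [sib]

lemma sg_sq {Ω : Type*} {J : ℕ} (i : Idx Ω J) : sg i ^ 2 = 1 := by
  unfold sg; split_ifs <;> norm_num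

/-- the alternating form -/
noncomputable def BB (Ω : Type*) [Fintype Ω] (J : ℕ) :
    EuclideanSpace ℝ (Idx Ω J) →ₗ[ℝ] EuclideanSpace ℝ (Idx Ω J) →ₗ[ℝ] ℝ :=
  LinearMap.mk₂ ℝ (fun v w => ∑ i, v i * (sg i * w (sib Ω J i)))
    (by intro a b c; simp [add_mul, Finset.sum_add_distrib])
    (by intro a b c; simp [Finset.mul_sum, mul_assoc])
    (by intro a b c; simp [mul_add, Finset.sum_add_distrib])
    (by intro a b c; simp only [PiLp.smul_apply, smul_eq_mul, Finset.mul_sum]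
        refine Finset.sum_congr rfl fun i _ => by ring)

lemma BB_apply (J : ℕ) (v w : EuclideanSpace ℝ (Idx Ω J)) :
    BB Ω J v w = ∑ i, v i * (sg i * w (sib Ω J i)) := rfl

lemma BB_self (J : ℕ) (v : EuclideanSpace ℝ (Idx Ω J)) : BB Ω J v v = 0 := by
  have h : BB Ω J v v = - BB Ω J v v := by
    conv_lhs => rw [BB_apply, ← Equiv.sum_comp (sib Ω J)]
    rw [BB_apply, ← Finset.sum_neg_distrib]
    refine Finset.sum_congr rfl fun i _ => ?_
    rw [sg_sib, sib_sib]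
    ring
  linarith

lemma BB_le (J : ℕ) (v w : EuclideanSpace ℝ (Idx Ω J)) : |BB Ω J v w| ≤ ‖v‖ * ‖w‖ := by
  rw [BB_apply]
  have h1 : (∑ i, v i * (sg i * w (sib Ω J i))) ^ 2 ≤
      (∑ i, v i ^ 2) * ∑ i, (sg i * w (sib Ω J i)) ^ 2 := Finset.sum_mul_sq_le_sq_mul_sq _ _ _
  have h2 : ∑ i, (sg i * w (sib Ω J i)) ^ 2 = ∑ i, w i ^ 2 := by
    rw [← Equiv.sum_comp (sib Ω J) (fun i => w i ^ 2)]
    refine Finset.sum_congr rfl fun i _ => ?_
    rw [mul_pow, sg_sq, one_mul]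
  have h3 : ‖v‖ ^ 2 = ∑ i, v i ^ 2 := by
    rw [EuclideanSpace.norm_sq_eq]; simp
  have h4 : ‖w‖ ^ 2 = ∑ i, w i ^ 2 := by
    rw [EuclideanSpace.norm_sq_eq]; simp
  rw [h2, ← h3, ← h4, ← mul_pow] at h1
  exact abs_le_of_sq_le_sq h1 (by positivity)

/-- the vector of a random variable -/
noncomputable def vec (J : ℕ) (c : Ω → ℕ) : EuclideanSpace ℝ (Idx Ω J) :=
  WithLp.toLp 2 fun i => if c i.1 / 2 ^ (i.2.1 : ℕ) = 2 * (i.2.2.1 : ℕ) + i.2.2.2.toNat then
    1 / Real.sqrt (Fintype.card Ω) else 0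

lemma inner_sum (J u v : ℕ) (hu : u < 2 ^ J) :
    ∑ R : Fin (2 ^ J), ∑ b : Bool, (if u = 2 * (R : ℕ) + b.toNat then (1 : ℝ) else 0) *
      ((if b then -1 else 1) * (if v = 2 * (R : ℕ) + (!b).toNat then (1 : ℝ) else 0)) =
    tdig u v := by
  have hu2 : u / 2 < 2 ^ J := lt_of_le_of_lt (Nat.div_le_self _ _) hu
  rw [Finset.sum_eq_single (⟨u / 2, hu2⟩ : Fin (2 ^ J))]
  · simp only [Fintype.sum_bool, Bool.toNat_true, Bool.toNat_false, Bool.not_true, Bool.not_false]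
    unfold tdig sgn
    rcases Nat.even_or_odd' u with ⟨k, hk | hk⟩
    · have h1 : u / 2 = k := by omega
      have h2 : u ≠ 2 * (u / 2) + 1 := by omega
      have h3 : u = 2 * (u / 2) + 0 := by omega
      rw [if_neg h2, if_pos h3]
      by_cases h4 : v = 2 * (u / 2) + 1
      · have h5 : u / 2 = v / 2 := by omega
        have h6 : u < v := by omega
        rw [if_pos h4, if_pos h5, if_pos h6]
        simp
      · by_cases h5 : u / 2 = v / 2
        · have h6 : v = u := by omega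
          rw [if_neg h4, h6]
          simp
        · rw [if_neg h4, if_neg h5]
          simp
    · have h1 : u / 2 = k := by omega
      have h2 : u = 2 * (u / 2) + 1 := by omega
      have h3 : u ≠ 2 * (u / 2) + 0 := by omega
      rw [if_pos h2, if_neg h3]
      by_cases h4 : v = 2 * (u / 2) + 0
      · have h5 : u / 2 = v / 2 := by omega
        have h6 : v < u := by omega
        have h7 : ¬ u < v := by omega
        rw [if_pos h4, if_pos h5, if_neg h7, if_pos h6]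
        simp
      · by_cases h5 : u / 2 = v / 2
        · have h6 : v = u := by omega
          rw [if_neg h4, h6]
          simp
        · rw [if_neg h4, if_neg h5]
          simp
  · intro R _ hR
    have hR' : (R : ℕ) ≠ u / 2 := fun h => hR (Fin.ext h)
    simp only [Fintype.sum_bool, Bool.toNat_true, Bool.toNat_false]
    have h1 : u ≠ 2 * (R : ℕ) + 1 := by omega
    have h2 : u ≠ 2 * (R : ℕ) + 0 := by omega
    rw [if_neg h1, if_neg h2]
    simp
  · intro h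
    exact absurd (Finset.mem_univ _) h

lemma inner_card (J u : ℕ) (hu : u < 2 ^ J) :
    ∑ R : Fin (2 ^ J), ∑ b : Bool, (if u = 2 * (R : ℕ) + b.toNat then (1 : ℝ) else 0) = 1 := by
  have hu2 : u / 2 < 2 ^ J := lt_of_le_of_lt (Nat.div_le_self _ _) hu
  rw [Finset.sum_eq_single (⟨u / 2, hu2⟩ : Fin (2 ^ J))]
  · simp only [Fintype.sum_bool, Bool.toNat_true, Bool.toNat_false]
    by_cases h : u = 2 * (u / 2) + 1
    · have h' : u ≠ 2 * (u / 2) + 0 := by omega
      rw [if_pos h, if_neg h']; simp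
    · have h' : u = 2 * (u / 2) + 0 := by omega
      rw [if_neg h, if_pos h']; simp
  · intro R _ hR
    have hR' : (R : ℕ) ≠ u / 2 := fun h => hR (Fin.ext h)
    simp only [Fintype.sum_bool, Bool.toNat_true, Bool.toNat_false]
    have h1 : u ≠ 2 * (R : ℕ) + 1 := by omega
    have h2 : u ≠ 2 * (R : ℕ) + 0 := by omega
    rw [if_neg h1, if_neg h2]
    simp
  · intro h
    exact absurd (Finset.mem_univ _) h

lemma div_lt_pow {J u : ℕ} (hu : u < 2 ^ J) (j : ℕ) : u / 2 ^ j < 2 ^ J :=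
  lt_of_le_of_lt (Nat.div_le_self _ _) hu

lemma norm_vec [Nonempty Ω] (J : ℕ) (c : Ω → ℕ) (hc : ∀ ω, c ω < 2 ^ J) :
    ‖vec J c‖ ^ 2 = J := by
  have hΩ : (0 : ℝ) < Fintype.card Ω := by exact_mod_cast Fintype.card_pos
  rw [EuclideanSpace.norm_sq_eq]
  have h1 : ∀ i : Idx Ω J, ‖vec J c i‖ ^ 2 = (1 / (Fintype.card Ω : ℝ)) *
      (if c i.1 / 2 ^ (i.2.1 : ℕ) = 2 * (i.2.2.1 : ℕ) + i.2.2.2.toNat then (1 : ℝ) else 0) := by
    intro i
    simp only [vec]
    split_ifs with h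
    · rw [Real.norm_eq_abs, sq_abs, div_pow, Real.sq_sqrt hΩ.le]
      simp
    · simp
  rw [Finset.sum_congr rfl fun i _ => h1 i, ← Finset.mul_sum]
  simp only [Idx, Fintype.sum_prod_type]
  have h2 : ∀ (ω : Ω) (j : Fin J), ∑ R : Fin (2 ^ J), ∑ b : Bool,
      (if c ω / 2 ^ (j : ℕ) = 2 * (R : ℕ) + b.toNat then (1 : ℝ) else 0) = 1 :=
    fun ω j => inner_card J _ (div_lt_pow (hc ω) _)
  simp only [h2, Finset.sum_const, Finset.card_univ, Fintype.card_fin, nsmul_eq_mul, mul_one]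
  field_simp

lemma BB_vec [Nonempty Ω] (J : ℕ) (c c' : Ω → ℕ) (hc : ∀ ω, c ω < 2 ^ J)
    (hc' : ∀ ω, c' ω < 2 ^ J) :
    BB Ω J (vec J c) (vec J c') = (∑ ω, sgn (c ω) (c' ω)) / Fintype.card Ω := by
  have hΩ : (0 : ℝ) < Fintype.card Ω := by exact_mod_cast Fintype.card_pos
  rw [BB_apply]
  have h1 : ∀ i : Idx Ω J, vec J c i * (sg i * vec J c' (sib Ω J i)) =
      (1 / (Fintype.card Ω : ℝ)) *
      ((if c i.1 / 2 ^ (i.2.1 : ℕ) = 2 * (i.2.2.1 : ℕ) + i.2.2.2.toNat then (1 : ℝ) else 0) *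
      ((if i.2.2.2 then -1 else 1) *
        (if c' i.1 / 2 ^ (i.2.1 : ℕ) = 2 * (i.2.2.1 : ℕ) + (!i.2.2.2).toNat then (1 : ℝ) else 0))) := by
    rintro ⟨ω, j, R, b⟩
    have hs : (1 / Real.sqrt (Fintype.card Ω)) * (1 / Real.sqrt (Fintype.card Ω)) =
        1 / (Fintype.card Ω : ℝ) := by
      rw [div_mul_div_comm, Real.mul_self_sqrt hΩ.le, one_mul]
    simp only [vec, sg, sib, Equiv.prodCongr_apply, Prod.map, Equiv.refl_apply, Equiv.boolNot_apply]
    rw [← hs]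
    split_ifs <;> simp
  rw [Finset.sum_congr rfl fun i _ => h1 i, ← Finset.mul_sum]
  simp only [Idx, Fintype.sum_prod_type]
  have h2 : ∀ (ω : Ω) (j : Fin J), ∑ R : Fin (2 ^ J), ∑ b : Bool,
      ((if c ω / 2 ^ (j : ℕ) = 2 * (R : ℕ) + b.toNat then (1 : ℝ) else 0) *
      ((if b then -1 else 1) *
        (if c' ω / 2 ^ (j : ℕ) = 2 * (R : ℕ) + (!b).toNat then (1 : ℝ) else 0))) =
      tdig (c ω / 2 ^ (j : ℕ)) (c' ω / 2 ^ (j : ℕ)) :=
    fun ω j => inner_sum J _ _ (div_lt_pow (hc ω) _)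
  simp only [h2]
  rw [one_div, inv_mul_eq_div]
  congr 1
  refine Finset.sum_congr rfl fun ω _ => ?_
  rw [sgn_eq J _ _ (hc ω) (hc' ω), Finset.sum_range]

theorem cells [Nonempty Ω] (J : ℕ) (hJ : 1 ≤ J) (c : β → Ω → ℕ)
    (hc : ∀ x ω, c x ω < 2 ^ J) (δ : ℝ) (hδ : 0 < δ) (m : ℕ) (z : ℕ → β)
    (h : ∀ i j, i < j → j < 2 ^ m →
      δ * Fintype.card Ω ≤ ∑ ω, sgn (c (z i) ω) (c (z j) ω)) :
    (m : ℝ) * δ ^ 2 ≤ 4 * (J : ℝ) ^ 2 := by
  have hΩ : (0 : ℝ) < Fintype.card Ω := by exact_mod_cast Fintype.card_pos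
  have hJ' : (0 : ℝ) < J := by exact_mod_cast hJ
  have hR : Real.sqrt J ^ 2 = J := Real.sq_sqrt hJ'.le
  have h1 := energy (BB Ω J) (BB_le J) (BB_self J) (Real.sqrt J) δ (Real.sqrt_pos.mpr hJ') hδ m
    (fun i => vec J (c (z i))) (fun i _ => ?_) (fun i j hij hj => ?_)
  · rwa [hR] at h1
  · have := norm_vec J (c (z i)) (hc (z i))
    rw [← hR] at this
    exact (pow_le_pow_iff_left₀ (norm_nonneg _) (Real.sqrt_nonneg _) (by norm_num)).mp this.le
  · rw [BB_vec J _ _ (hc _) (hc _), le_div_iff₀ hΩ]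
    exact h i j hij hj

end

end Pool.Agent.TH161.LW
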