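import Mathlib
import Pool.Agent.H34.L.TH161.LW.Cells

/-!
# An entropy form of Komlós' pigeonhole principle

`c x`, `x ∈ S`, are random variables with values in `{0, …, 2 ^ J - 1}` on a finite probability
space.  If `|P (c x < c y) - P (c y < c x)| ≥ δ` for all `x ≠ y` in `S`, then
`δ⁴ log |S| ≤ 400 J³`.
-/

set_option autoImplicit false

open Finset

namespace Pool.Agent.TH161.LW

/-! ### Inequalities -/

lemma base_ineq {x : ℝ} (hx : 0 ≤ x) : (x - 1) + (x - 1) ^ 2 / (2 * (x + 1)) ≤ x * Real.log x := by
  rcases hx.eq_or_lt with h | h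
  · rw [← h]; norm_num
  set y := Real.sqrt x with hy
  have hy0 : 0 < y := Real.sqrt_pos.mpr h
  have hyx : y ^ 2 = x := Real.sq_sqrt hx
  have h1 : 1 - y⁻¹ ≤ Real.log y := Real.one_sub_inv_le_log_of_pos hy0
  have h2 : Real.log x = 2 * Real.log y := by
    rw [← hyx, Real.log_pow]; norm_num
  rw [h2, ← hyx]
  have h3 : y ^ 2 * (2 * (1 - y⁻¹)) = 2 * y ^ 2 - 2 * y := by
    field_simp
  have h4 : 2 * y ^ 2 - 2 * y ≤ y ^ 2 * (2 * Real.log y) := by
    rw [← h3]
    gcongr
  refine le_trans ?_ h4
  have h5 : (y ^ 2 - 1) ^ 2 / (2 * (y ^ 2 + 1)) ≤ (y - 1) ^ 2 := by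
    rw [div_le_iff₀ (by positivity)]
    have : (y ^ 2 - 1) ^ 2 = (y - 1) ^ 2 * (y + 1) ^ 2 := by ring
    rw [this]
    refine mul_le_mul_of_nonneg_left ?_ (sq_nonneg _)
    nlinarith [sq_nonneg (y - 1)]
  nlinarith

lemma base_ineq' {p m : ℝ} (hp : 0 ≤ p) (hm : 0 < m) :
    (p - m) + (p - m) ^ 2 / (2 * (p + m)) ≤ p * Real.log (p / m) := by
  have h := base_ineq (x := p / m) (by positivity)
  have h2 := mul_le_mul_of_nonneg_left h hm.le
  have e1 : m * (p / m * Real.log (p / m)) = p * Real.log (p / m) := by field_simp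
  have e2 : m * ((p / m - 1) + (p / m - 1) ^ 2 / (2 * (p / m + 1))) =
      (p - m) + (p - m) ^ 2 / (2 * (p + m)) := by
    have : p / m + 1 ≠ 0 := by positivity
    have : p + m ≠ 0 := by positivity
    field_simp
  rw [e1, e2] at h2
  exact h2

/-- `x log x` -/
noncomputable def ph (x : ℝ) : ℝ := x * Real.log x

lemma T_ge {a b A B : ℝ} (ha : 0 ≤ a) (hb : 0 ≤ b) (hA : 0 < A) (hB : 0 < B) :
    A * B / (4 * (A + B)) * ((a / A - b / B) ^ 2 / (a / A + b / B)) ≤
      ph a + ph b - ph (a + b) + (a + b) * Real.log (A + B) - a * Real.log A -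
        b * Real.log B := by
  by_cases hab : a + b = 0
  · have ha0 : a = 0 := by linarith
    have hb0 : b = 0 := by linarith
    simp [ha0, hb0, ph]
  have hab' : 0 < a + b := lt_of_le_of_ne (by positivity) (Ne.symm hab)
  set p := a / A with hp
  set q := b / B with hq
  set W := A + B with hW
  have hWpos : 0 < W := by positivity
  set m := (a + b) / W with hm
  have hmpos : 0 < m := by positivity
  have hp0 : 0 ≤ p := by positivity
  have hq0 : 0 ≤ q := by positivity
  have haA : a = A * p := by rw [hp]; field_simp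
  have hbB : b = B * q := by rw [hq]; field_simp
  have hpq : 0 < p + q := by
    rcases ha.eq_or_lt with h | h
    · have : 0 < b := by linarith
      positivity
    · positivity
  -- rewrite the right side
  have e1 : ph a + ph b - ph (a + b) + (a + b) * Real.log W - a * Real.log A - b * Real.log B =
      A * (p * Real.log (p / m)) + B * (q * Real.log (q / m)) := by
    have l1 : a * Real.log a - a * Real.log A - a * Real.log ((a + b) / W) =
        A * (p * Real.log (p / m)) := by
      rcases ha.eq_or_lt with h | h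
      · have : p = 0 := by rw [hp, ← h]; simp
        rw [← h, this]; simp
      · have hp1 : 0 < p := by positivity
        rw [Real.log_div hp1.ne' hmpos.ne', hp, Real.log_div h.ne' hA.ne', hm]
        field_simp
    have l2 : b * Real.log b - b * Real.log B - b * Real.log ((a + b) / W) =
        B * (q * Real.log (q / m)) := by
      rcases hb.eq_or_lt with h | h
      · have : q = 0 := by rw [hq, ← h]; simp
        rw [← h, this]; simp
      · have hq1 : 0 < q := by positivity
        rw [Real.log_div hq1.ne' hmpos.ne', hq, Real.log_div h.ne' hB.ne', hm]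
        field_simp
    rw [← l1, ← l2, Real.log_div hab'.ne' hWpos.ne']
    unfold ph
    ring
  rw [e1]
  have b1 := mul_le_mul_of_nonneg_left (base_ineq' hp0 hmpos) hA.le
  have b2 := mul_le_mul_of_nonneg_left (base_ineq' hq0 hmpos) hB.le
  have hmW : W * m = A * p + B * q := by
    rw [hm, ← haA, ← hbB]; field_simp
  have hmle : m ≤ p + q := by
    have : W * m ≤ W * (p + q) := by rw [hmW, hW]; nlinarith [mul_nonneg hA.le hq0, mul_nonneg hB.le hp0]
    exact le_of_mul_le_mul_left this hWpos
  have c1 : (p - m) ^ 2 / (4 * (p + q)) ≤ (p - m) ^ 2 / (2 * (p + m)) := by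
    apply div_le_div_of_nonneg_left (sq_nonneg _) (by positivity)
    nlinarith
  have c2 : (q - m) ^ 2 / (4 * (p + q)) ≤ (q - m) ^ 2 / (2 * (q + m)) := by
    apply div_le_div_of_nonneg_left (sq_nonneg _) (by positivity)
    nlinarith
  have hlin : A * (p - m) + B * (q - m) = 0 := by
    have : W * m = A * m + B * m := by rw [hW]; ring
    linarith
  have hpm : p - m = B / W * (p - q) := by
    have h1 : W * (p - m) = B * (p - q) := by
      rw [mul_sub, hmW, hW]; ring
    field_simp
    linarith
  have hqm : q - m = -(A / W * (p - q)) := by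
    have h1 : W * (q - m) = -(A * (p - q)) := by
      rw [mul_sub, hmW, hW]; ring
    field_simp
    linarith
  have key : A * B / (4 * W) * ((p - q) ^ 2 / (p + q)) =
      A * ((p - m) ^ 2 / (4 * (p + q))) + B * ((q - m) ^ 2 / (4 * (p + q))) := by
    rw [hpm, hqm]
    have : W ≠ 0 := hWpos.ne'
    have h2 : p + q ≠ 0 := hpq.ne'
    field_simp
    rw [hW]
    ring
  rw [key]
  have d1 := mul_le_mul_of_nonneg_left c1 hA.le
  have d2 := mul_le_mul_of_nonneg_left c2 hB.le
  nlinarith

end Pool.Agent.TH161.LW
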