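import Mathlib
import Pool.Agent.H34.L.TH161.LW.Info

/-!
# Superadditivity of the information functional
-/

set_option autoImplicit false

open Finset
open scoped Classical

namespace Pool.Agent.TH161.LW

variable {β : Type*}

/-- number of elements of `X` with value `s` -/
noncomputable def cnt (u : β → ℕ) (X : Finset β) (s : ℕ) : ℝ := ((X.filter fun x => u x = s).card : ℝ)

lemma cnt_nonneg (u : β → ℕ) (X : Finset β) (s : ℕ) : 0 ≤ cnt u X s := by
  unfold cnt; positivity

lemma cnt_union (u : β → ℕ) {X Y : Finset β} (h : Disjoint X Y) (s : ℕ) :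
    cnt u (X ∪ Y) s = cnt u X s + cnt u Y s := by
  unfold cnt
  rw [Finset.filter_union, Finset.card_union_of_disjoint]
  · push_cast; ring
  · exact Finset.disjoint_filter_filter h

lemma sum_cnt_mul (u : β → ℕ) {X : Finset β} {r : ℕ} (hu : ∀ x ∈ X, u x < r) (F : ℕ → ℝ) :
    ∑ x ∈ X, F (u x) = ∑ s ∈ range r, cnt u X s * F s := by
  rw [← Finset.sum_fiberwise_of_maps_to (s := X) (t := range r) (g := u)
    (fun x hx => Finset.mem_range.mpr (hu x hx))]
  refine Finset.sum_congr rfl fun s _ => ?_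
  rw [Finset.sum_congr rfl (g := fun _ => F s) (fun x hx => by rw [(Finset.mem_filter.mp hx).2]),
    Finset.sum_const, nsmul_eq_mul]
  rfl

lemma sum_cnt (u : β → ℕ) {X : Finset β} {r : ℕ} (hu : ∀ x ∈ X, u x < r) :
    ∑ s ∈ range r, cnt u X s = X.card := by
  have h := sum_cnt_mul u hu (fun _ => 1)
  simp only [mul_one, Finset.sum_const, nsmul_eq_mul] at h
  exact h.symm

/-- information functional for one outcome -/
noncomputable def Gw (r : ℕ) (u : β → ℕ) (X : Finset β) : ℝ :=
  ph X.card - ∑ s ∈ range r, ph (cnt u X s)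

/-- `ℓ¹` distance of the empirical distributions -/
noncomputable def dist1 (r : ℕ) (u : β → ℕ) (X Y : Finset β) : ℝ :=
  ∑ s ∈ range r, |cnt u X s / X.card - cnt u Y s / Y.card|

lemma Gw_union {r : ℕ} {u : β → ℕ} {X Y : Finset β} (h : Disjoint X Y) (hX : X.Nonempty)
    (hY : Y.Nonempty) (hu : ∀ x ∈ X, u x < r) (hv : ∀ x ∈ Y, u x < r) :
    Gw r u X + Gw r u Y + (X.card * Y.card : ℝ) / (8 * (X.card + Y.card)) * dist1 r u X Y ^ 2 ≤
      Gw r u (X ∪ Y) := by
  have hA : (0 : ℝ) < X.card := by exact_mod_cast hX.card_pos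
  have hB : (0 : ℝ) < Y.card := by exact_mod_cast hY.card_pos
  set A : ℝ := (X.card : ℝ) with hAdef
  set B : ℝ := (Y.card : ℝ) with hBdef
  have hc : ((X ∪ Y).card : ℝ) = A + B := by
    rw [Finset.card_union_of_disjoint h]; push_cast; rfl
  have e1 : Gw r u (X ∪ Y) - Gw r u X - Gw r u Y = ∑ s ∈ range r,
      (ph (cnt u X s) + ph (cnt u Y s) - ph (cnt u X s + cnt u Y s) +
        (cnt u X s + cnt u Y s) * Real.log (A + B) - cnt u X s * Real.log A -
        cnt u Y s * Real.log B) := by
    have s1 : ∑ s ∈ range r, cnt u X s = A := sum_cnt u hu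
    have s2 : ∑ s ∈ range r, cnt u Y s = B := sum_cnt u hv
    unfold Gw
    rw [hc]
    simp only [cnt_union u h]
    rw [Finset.sum_sub_distrib, Finset.sum_sub_distrib, Finset.sum_add_distrib,
      Finset.sum_sub_distrib, Finset.sum_add_distrib, ← Finset.sum_mul, ← Finset.sum_mul,
      ← Finset.sum_mul, Finset.sum_add_distrib, s1, s2]
    unfold ph
    ring
  have e2 : A * B / (4 * (A + B)) * ∑ s ∈ range r,
      ((cnt u X s / A - cnt u Y s / B) ^ 2 / (cnt u X s / A + cnt u Y s / B)) ≤
      Gw r u (X ∪ Y) - Gw r u X - Gw r u Y := by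
    rw [e1, Finset.mul_sum]
    exact Finset.sum_le_sum fun s _ => T_ge (cnt_nonneg _ _ _) (cnt_nonneg _ _ _) hA hB
  have e3 : dist1 r u X Y ^ 2 ≤ 2 * ∑ s ∈ range r,
      ((cnt u X s / A - cnt u Y s / B) ^ 2 / (cnt u X s / A + cnt u Y s / B)) := by
    have h1 := Finset.sum_sq_le_sum_mul_sum_of_sq_le_mul (range r)
      (r := fun s => |cnt u X s / A - cnt u Y s / B|)
      (f := fun s => (cnt u X s / A - cnt u Y s / B) ^ 2 / (cnt u X s / A + cnt u Y s / B))
      (g := fun s => cnt u X s / A + cnt u Y s / B)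
      (fun s _ => by
        have := cnt_nonneg u X s
        have := cnt_nonneg u Y s
        positivity)
      (fun s _ => by
        have := cnt_nonneg u X s
        have := cnt_nonneg u Y s
        positivity)
      (fun s _ => by
        have h2 := cnt_nonneg u X s
        have h3 := cnt_nonneg u Y s
        rw [sq_abs]
        by_cases h4 : cnt u X s / A + cnt u Y s / B = 0
        · have h5 : 0 ≤ cnt u X s / A := by positivity
          have h6 : 0 ≤ cnt u Y s / B := by positivity
          have h7 : cnt u X s / A = 0 := by linarith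
          have h8 : cnt u Y s / B = 0 := by linarith
          simp [h7, h8]
        · rw [div_mul_cancel₀ _ h4])
    have h2 : ∑ s ∈ range r, (cnt u X s / A + cnt u Y s / B) = 2 := by
      rw [Finset.sum_add_distrib, ← Finset.sum_div, ← Finset.sum_div, sum_cnt u hu, sum_cnt u hv,
        div_self hA.ne', div_self hB.ne']
      norm_num
    rw [h2] at h1
    unfold dist1
    linarith
  have e4 : A * B / (8 * (A + B)) * dist1 r u X Y ^ 2 ≤ A * B / (4 * (A + B)) * ∑ s ∈ range r,
      ((cnt u X s / A - cnt u Y s / B) ^ 2 / (cnt u X s / A + cnt u Y s / B)) := by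
    have h1 : A * B / (8 * (A + B)) * dist1 r u X Y ^ 2 ≤ A * B / (8 * (A + B)) *
      (2 * ∑ s ∈ range r,
      ((cnt u X s / A - cnt u Y s / B) ^ 2 / (cnt u X s / A + cnt u Y s / B))) :=
      mul_le_mul_of_nonneg_left e3 (by positivity)
    refine h1.trans_eq ?_
    have : A + B ≠ 0 := by positivity
    field_simp
    ring
  linarith

/-- superadditivity -/
lemma Gw_super {r : ℕ} {u : β → ℕ} {X Y : Finset β} (h : Disjoint X Y)
    (hu : ∀ x ∈ X, u x < r) (hv : ∀ x ∈ Y, u x < r) :
    Gw r u X + Gw r u Y ≤ Gw r u (X ∪ Y) := by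
  have hG0 : Gw r u (∅ : Finset β) = 0 := by simp [Gw, cnt, ph]
  rcases X.eq_empty_or_nonempty with hX | hX
  · subst hX; rw [hG0, Finset.empty_union]; linarith
  rcases Y.eq_empty_or_nonempty with hY | hY
  · subst hY; rw [hG0, Finset.union_empty]; linarith
  have h1 := Gw_union h hX hY hu hv
  have h2 : 0 ≤ (X.card * Y.card : ℝ) / (8 * (X.card + Y.card)) * dist1 r u X Y ^ 2 := by
    positivity
  linarith

/-- the functional is at most `|X| log r` -/
lemma Gw_le {r : ℕ} (hr : 0 < r) {u : β → ℕ} {X : Finset β} (hu : ∀ x ∈ X, u x < r) :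
    Gw r u X ≤ X.card * Real.log r := by
  rcases X.eq_empty_or_nonempty with hX | hX
  · subst hX; simp [Gw, cnt, ph]
  have hA : (0 : ℝ) < X.card := by exact_mod_cast hX.card_pos
  have hr' : (0 : ℝ) < r := by exact_mod_cast hr
  set A : ℝ := (X.card : ℝ) with hAdef
  have h1 : ∀ s ∈ range r, cnt u X s * Real.log A - ph (cnt u X s) ≤
      cnt u X s * Real.log r + (A / r - cnt u X s) := by
    intro s _
    have h0 := cnt_nonneg u X s
    rcases h0.eq_or_lt with h2 | h2
    · rw [← h2]
      simp only [ph, zero_mul, sub_zero, zero_add]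
      positivity
    · set n := cnt u X s with hn
      have h3 : Real.log (A / (r * n)) ≤ A / (r * n) - 1 := Real.log_le_sub_one_of_pos (by positivity)
      have h4 : Real.log (A / (r * n)) = Real.log A - (Real.log r + Real.log n) := by
        rw [Real.log_div hA.ne' (by positivity), Real.log_mul hr'.ne' h2.ne']
      rw [h4] at h3
      have h5 := mul_le_mul_of_nonneg_left h3 h2.le
      have h6 : n * (A / (r * n) - 1) = A / r - n := by field_simp
      rw [h6] at h5
      unfold ph
      linarith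
  have h2 := Finset.sum_le_sum h1
  have h3 : ∑ s ∈ range r, cnt u X s = A := sum_cnt u hu
  rw [Finset.sum_sub_distrib, Finset.sum_add_distrib, Finset.sum_sub_distrib, ← Finset.sum_mul,
    ← Finset.sum_mul, h3, Finset.sum_const, card_range, nsmul_eq_mul, mul_div_cancel₀ _ hr'.ne'] at h2
  unfold Gw
  have h4 : ph A = A * Real.log A := rfl
  rw [h4]
  linarith

/-- the sign form is bounded by the distance -/
lemma sgn_form_le {r : ℕ} {u : β → ℕ} {X Y : Finset β} (hX : X.Nonempty)
    (hY : Y.Nonempty) (hu : ∀ x ∈ X, u x < r) (hv : ∀ x ∈ Y, u x < r) :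
    |∑ x ∈ X, ∑ y ∈ Y, sgn (u x) (u y)| ≤ X.card * Y.card * dist1 r u X Y := by
  have hA : (0 : ℝ) < X.card := by exact_mod_cast hX.card_pos
  have hB : (0 : ℝ) < Y.card := by exact_mod_cast hY.card_pos
  set A : ℝ := (X.card : ℝ) with hAdef
  set B : ℝ := (Y.card : ℝ) with hBdef
  set p : ℕ → ℝ := fun s => cnt u X s / A with hp
  set q : ℕ → ℝ := fun s => cnt u Y s / B with hq
  have hp0 : ∀ s, 0 ≤ p s := fun s => by
    have := cnt_nonneg u X s
    simp only [hp]; positivity
  have hps : ∑ s ∈ range r, p s = 1 := by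
    simp only [hp]
    rw [← Finset.sum_div, sum_cnt u hu, div_self hA.ne']
  have e1 : ∑ x ∈ X, ∑ y ∈ Y, sgn (u x) (u y) =
      A * B * ∑ s ∈ range r, ∑ t ∈ range r, p s * (q t * sgn s t) := by
    have h1 : ∀ x ∈ X, ∑ y ∈ Y, sgn (u x) (u y) = ∑ t ∈ range r, cnt u Y t * sgn (u x) t :=
      fun x _ => sum_cnt_mul u hv (fun t => sgn (u x) t)
    rw [Finset.sum_congr rfl h1, sum_cnt_mul u hu (fun s => ∑ t ∈ range r, cnt u Y t * sgn s t),
      Finset.mul_sum]
    refine Finset.sum_congr rfl fun s _ => ?_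
    rw [Finset.mul_sum, Finset.mul_sum]
    refine Finset.sum_congr rfl fun t _ => ?_
    simp only [hp, hq]
    field_simp
  have hanti : ∀ s t : ℕ, sgn s t = - sgn t s := by
    intro s t
    unfold sgn
    rcases lt_trichotomy s t with h | h | h
    · simp [h, h.not_gt]
    · simp [h]
    · simp [h, h.not_gt]
  have e2 : ∑ s ∈ range r, ∑ t ∈ range r, p s * (p t * sgn s t) = 0 := by
    have h1 : ∑ s ∈ range r, ∑ t ∈ range r, p s * (p t * sgn s t) =
        - ∑ s ∈ range r, ∑ t ∈ range r, p s * (p t * sgn s t) := by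
      conv_lhs => rw [Finset.sum_comm]
      rw [← Finset.sum_neg_distrib]
      refine Finset.sum_congr rfl fun s _ => ?_
      rw [← Finset.sum_neg_distrib]
      refine Finset.sum_congr rfl fun t _ => ?_
      rw [hanti t s]
      ring
    linarith
  have e3 : ∑ s ∈ range r, ∑ t ∈ range r, p s * (q t * sgn s t) =
      ∑ s ∈ range r, ∑ t ∈ range r, p s * ((q t - p t) * sgn s t) := by
    rw [← sub_zero (∑ s ∈ range r, ∑ t ∈ range r, p s * (q t * sgn s t)), ← e2,
      ← Finset.sum_sub_distrib]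
    refine Finset.sum_congr rfl fun s _ => ?_
    rw [← Finset.sum_sub_distrib]
    refine Finset.sum_congr rfl fun t _ => ?_
    ring
  have hsg : ∀ s t : ℕ, |sgn s t| ≤ 1 := by
    intro s t
    unfold sgn
    split_ifs <;> norm_num
  have e4 : |∑ s ∈ range r, ∑ t ∈ range r, p s * ((q t - p t) * sgn s t)| ≤ dist1 r u X Y := by
    calc |∑ s ∈ range r, ∑ t ∈ range r, p s * ((q t - p t) * sgn s t)|
        ≤ ∑ s ∈ range r, |∑ t ∈ range r, p s * ((q t - p t) * sgn s t)| :=
          Finset.abs_sum_le_sum_abs _ _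
      _ ≤ ∑ s ∈ range r, ∑ t ∈ range r, |p s * ((q t - p t) * sgn s t)| :=
          Finset.sum_le_sum fun s _ => Finset.abs_sum_le_sum_abs _ _
      _ ≤ ∑ s ∈ range r, ∑ t ∈ range r, p s * |q t - p t| := by
          refine Finset.sum_le_sum fun s _ => Finset.sum_le_sum fun t _ => ?_
          rw [abs_mul, abs_mul, abs_of_nonneg (hp0 s)]
          refine mul_le_mul_of_nonneg_left ?_ (hp0 s)
          exact mul_le_of_le_one_right (abs_nonneg _) (hsg s t)
      _ = (∑ s ∈ range r, p s) * ∑ t ∈ range r, |q t - p t| := by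
          rw [Finset.sum_mul_sum]
      _ = ∑ t ∈ range r, |q t - p t| := by rw [hps, one_mul]
      _ = dist1 r u X Y := by
          unfold dist1
          exact Finset.sum_congr rfl fun t _ => abs_sub_comm _ _
  have hAB : 0 ≤ A * B := mul_nonneg hA.le hB.le
  rw [e1, e3, abs_mul, abs_of_nonneg hAB]
  exact mul_le_mul_of_nonneg_left e4 hAB

end Pool.Agent.TH161.LW
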