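import Mathlib

/-!
# Order preserving maps to a grid

`Om α M` is the set of order preserving maps `α → {0, …, M - 1}`.  For such a map `f` and an
element `x`, `len M f x` is the number of values that `f x` can take when the values at all other
elements are kept.

* `shift_count`: if for all `f ∈ E` at least `k` elements of the antichain `A` have
  `len M f x ≤ t`, then `|E| (t + m) ^ k ≤ t ^ k |Om α (M + m)|`.
* `close_count`: the number of `f` with `len M f x > t` and `⌊f x / s⌋ = ⌊f y / s⌋` is at most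
  `(s / t) |Om α M|`.
-/

set_option autoImplicit false

open Finset
open scoped Classical

namespace Pool.Agent.TH161.LW

variable {α : Type*} [Fintype α] [PartialOrder α]

/-- order preserving maps to the grid -/
noncomputable def Om (α : Type*) [Fintype α] [PartialOrder α] (M : ℕ) : Finset (α → ℕ) :=
  (Fintype.piFinset fun _ => range M).filter Monotone

lemma mem_Om {M : ℕ} {f : α → ℕ} : f ∈ Om α M ↔ (∀ x, f x < M) ∧ Monotone f := by
  simp [Om]

/-- least possible value at `x` -/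
noncomputable def lo (f : α → ℕ) (x : α) : ℕ := (univ.filter (· < x)).sup f

/-- largest possible value at `x` -/
noncomputable def hi (M : ℕ) (f : α → ℕ) (x : α) : ℕ :=
  (insert (M - 1) ((univ.filter (x < ·)).image f)).min' (Finset.insert_nonempty _ _)

lemma lo_le {f : α → ℕ} {x : α} {v : ℕ} : lo f x ≤ v ↔ ∀ d, d < x → f d ≤ v := by
  simp [lo, Finset.sup_le_iff]

lemma le_hi {M : ℕ} {f : α → ℕ} {x : α} {v : ℕ} :
    v ≤ hi M f x ↔ v ≤ M - 1 ∧ ∀ u, x < u → v ≤ f u := by
  unfold hi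
  rw [Finset.le_min'_iff]
  simp

/-- number of possible values at `x` -/
noncomputable def len (M : ℕ) (f : α → ℕ) (x : α) : ℕ := hi M f x + 1 - lo f x

/-- replace the values on `A` by the least possible ones -/
noncomputable def pr (A : Finset α) (f : α → ℕ) : α → ℕ := fun z => if z ∈ A then lo f z else f z

section

variable {A : Finset α} (hA : IsAntichain (· ≤ ·) (A : Set α))
include hA

omit [Fintype α] in
lemma not_mem_of_lt {x d : α} (hx : x ∈ A) (hd : d < x) : d ∉ A := fun h =>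
  hA h hx hd.ne hd.le

omit [Fintype α] in
lemma not_mem_of_gt {x u : α} (hx : x ∈ A) (hu : x < u) : u ∉ A := fun h =>
  hA hx h hu.ne hu.le

lemma lo_congr {f g : α → ℕ} (h : ∀ z, z ∉ A → f z = g z) {x : α} (hx : x ∈ A) :
    lo f x = lo g x := by
  apply le_antisymm
  · rw [lo_le]
    intro d hd
    rw [h d (not_mem_of_lt hA hx hd)]
    exact lo_le.mp le_rfl d hd
  · rw [lo_le]
    intro d hd
    rw [← h d (not_mem_of_lt hA hx hd)]
    exact lo_le.mp le_rfl d hd

lemma hi_congr {M : ℕ} {f g : α → ℕ} (h : ∀ z, z ∉ A → f z = g z) {x : α} (hx : x ∈ A) :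
    hi M f x = hi M g x := by
  apply le_antisymm
  · rw [le_hi]
    refine ⟨(le_hi.mp le_rfl).1, fun u hu => ?_⟩
    rw [← h u (not_mem_of_gt hA hx hu)]
    exact (le_hi.mp (le_refl (hi M f x))).2 u hu
  · rw [le_hi]
    refine ⟨(le_hi.mp le_rfl).1, fun u hu => ?_⟩
    rw [h u (not_mem_of_gt hA hx hu)]
    exact (le_hi.mp (le_refl (hi M g x))).2 u hu

omit hA in
lemma pr_off {f : α → ℕ} {z : α} (hz : z ∉ A) : pr A f z = f z := if_neg hz

omit hA in
lemma pr_on {f : α → ℕ} {z : α} (hz : z ∈ A) : pr A f z = lo f z := if_pos hz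

lemma lo_pr {f : α → ℕ} {x : α} (hx : x ∈ A) : lo (pr A f) x = lo f x :=
  lo_congr hA (fun _ hz => pr_off hz) hx

lemma hi_pr {M : ℕ} {f : α → ℕ} {x : α} (hx : x ∈ A) : hi M (pr A f) x = hi M f x :=
  hi_congr hA (fun _ hz => pr_off hz) hx

lemma len_pr {M : ℕ} {f : α → ℕ} {x : α} (hx : x ∈ A) : len M (pr A f) x = len M f x := by
  unfold len
  rw [lo_pr hA hx, hi_pr hA hx]

omit hA in
lemma lo_le_self {M : ℕ} {f : α → ℕ} (hf : f ∈ Om α M) (x : α) : lo f x ≤ f x :=
  lo_le.mpr fun _ hd => (mem_Om.mp hf).2 hd.le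

omit hA in
lemma self_le_hi {M : ℕ} {f : α → ℕ} (hf : f ∈ Om α M) (x : α) : f x ≤ hi M f x :=
  le_hi.mpr ⟨by have := (mem_Om.mp hf).1 x; omega, fun _ hu => (mem_Om.mp hf).2 hu.le⟩

omit hA in
lemma len_pos {M : ℕ} {f : α → ℕ} (hf : f ∈ Om α M) (x : α) : 1 ≤ len M f x := by
  have h1 := lo_le_self hf x
  have h2 := self_le_hi hf x
  unfold len
  omega

/-- extended fibre over `h`: values above `A` are shifted by `m` -/
noncomputable def fibE (A : Finset α) (M m : ℕ) (h : α → ℕ) : Finset (α → ℕ) :=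
  Fintype.piFinset fun z => if z ∈ A then Icc (lo h z) (hi M h z + m) else
    {if ∃ x ∈ A, x < z then h z + m else h z}

omit hA in
lemma card_fibE (M m : ℕ) (h : α → ℕ) :
    (fibE A M m h).card = ∏ z ∈ A, (hi M h z + m + 1 - lo h z) := by
  unfold fibE
  rw [Fintype.card_piFinset]
  rw [← Finset.prod_subset (Finset.subset_univ A)]
  · refine Finset.prod_congr rfl fun z hz => ?_
    rw [if_pos hz, Nat.card_Icc]
  · intro z _ hz
    rw [if_neg hz, Finset.card_singleton]

omit hA in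
lemma mem_fibE {M m : ℕ} {h f : α → ℕ} : f ∈ fibE A M m h ↔
    (∀ z ∈ A, lo h z ≤ f z ∧ f z ≤ hi M h z + m) ∧
    (∀ z, z ∉ A → f z = if ∃ x ∈ A, x < z then h z + m else h z) := by
  unfold fibE
  rw [Fintype.mem_piFinset]
  constructor
  · intro H
    refine ⟨fun z hz => ?_, fun z hz => ?_⟩
    · have := H z
      rw [if_pos hz] at this
      exact Finset.mem_Icc.mp this
    · have := H z
      rw [if_neg hz] at this
      exact Finset.mem_singleton.mp this
  · rintro ⟨H1, H2⟩ z
    by_cases hz : z ∈ A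
    · rw [if_pos hz]
      exact Finset.mem_Icc.mpr (H1 z hz)
    · rw [if_neg hz]
      exact Finset.mem_singleton.mpr (H2 z hz)

lemma fibE_subset {M m : ℕ} {f₀ : α → ℕ} (hf₀ : f₀ ∈ Om α M) :
    fibE A M m (pr A f₀) ⊆ Om α (M + m) := by
  intro f hf
  obtain ⟨h1, h2⟩ := mem_fibE.mp hf
  obtain ⟨g1, g2⟩ := mem_Om.mp hf₀
  have hM : ∀ z : α, 1 ≤ M := fun z => by have := g1 z; omega
  rw [mem_Om]
  refine ⟨fun z => ?_, ?_⟩
  · by_cases hz : z ∈ A
    · have h3 := (h1 z hz).2
      have h4 := (le_hi.mp (le_refl (hi M (pr A f₀) z))).1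
      have := hM z
      omega
    · have h3 := h2 z hz
      have h4 := g1 z
      rw [pr_off hz] at h3
      split_ifs at h3 <;> omega
  · intro z z' hzz'
    rcases hzz'.eq_or_lt with h | hlt
    · rw [h]
    by_cases hz : z ∈ A
    · have hz' : z' ∉ A := not_mem_of_gt hA hz hlt
      have h3 := (h1 z hz).2
      have h4 := h2 z' hz'
      rw [if_pos ⟨z, hz, hlt⟩] at h4
      have h5 := (le_hi.mp (le_refl (hi M (pr A f₀) z))).2 z' hlt
      omega
    · by_cases hz' : z' ∈ A
      · have h3 := (h1 z' hz').1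
        have h4 := h2 z hz
        rw [if_neg] at h4
        · have h5 := lo_le.mp (le_refl (lo (pr A f₀) z')) z hlt
          omega
        · rintro ⟨x, hx, hxz⟩
          exact hA hx hz' (hxz.trans hlt).ne (hxz.trans hlt).le
      · have h3 := h2 z hz
        have h4 := h2 z' hz'
        have h5 : f₀ z ≤ f₀ z' := g2 hlt.le
        rw [pr_off hz] at h3
        rw [pr_off hz'] at h4
        by_cases hex : ∃ x ∈ A, x < z
        · have hex' : ∃ x ∈ A, x < z' := by
            obtain ⟨x, hx, hxz⟩ := hex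
            exact ⟨x, hx, hxz.trans hlt⟩
          rw [if_pos hex] at h3
          rw [if_pos hex'] at h4
          omega
        · rw [if_neg hex] at h3
          split_ifs at h4 <;> omega

lemma eq_of_mem_fibE {M m : ℕ} {f₀ f₁ f : α → ℕ} (h0 : f ∈ fibE A M m (pr A f₀))
    (h1 : f ∈ fibE A M m (pr A f₁)) : pr A f₀ = pr A f₁ := by
  obtain ⟨_, a2⟩ := mem_fibE.mp h0
  obtain ⟨_, b2⟩ := mem_fibE.mp h1
  have hoff : ∀ z, z ∉ A → pr A f₀ z = pr A f₁ z := by
    intro z hz
    have h3 := a2 z hz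
    have h4 := b2 z hz
    split_ifs at h3 h4 <;> omega
  funext z
  by_cases hz : z ∈ A
  · rw [pr_on hz, pr_on hz, ← lo_pr (f := f₀) hA hz, ← lo_pr (f := f₁) hA hz]
    exact lo_congr hA hoff hz
  · exact hoff z hz

lemma mem_fib_self {M : ℕ} {f : α → ℕ} (hf : f ∈ Om α M) : f ∈ fibE A M 0 (pr A f) := by
  rw [mem_fibE]
  refine ⟨fun z hz => ⟨?_, ?_⟩, fun z hz => ?_⟩
  · rw [lo_pr hA hz]; exact lo_le_self hf z
  · rw [hi_pr hA hz]; exact self_le_hi hf z
  · rw [pr_off hz]; simp

lemma pr_of_mem_fib {M : ℕ} {f f₀ : α → ℕ} (h : f ∈ fibE A M 0 (pr A f₀)) :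
    pr A f = pr A f₀ := by
  obtain ⟨a1, a2⟩ := mem_fibE.mp h
  have hoff : ∀ z, z ∉ A → f z = pr A f₀ z := by
    intro z hz
    have := a2 z hz
    simpa using this
  funext z
  by_cases hz : z ∈ A
  · rw [pr_on hz, pr_on hz, ← lo_pr (f := f₀) hA hz]
    exact lo_congr hA hoff hz
  · rw [pr_off hz]; exact hoff z hz

omit [Fintype α] [PartialOrder α] hA in
/-- product estimate -/
lemma prod_shift (A : Finset α) (l : α → ℕ) (k t m : ℕ)
    (hk : k ≤ (A.filter fun x => l x ≤ t).card) :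
    (∏ x ∈ A, l x) * (t + m) ^ k ≤ t ^ k * ∏ x ∈ A, (l x + m) := by
  obtain ⟨S, hS, hSk⟩ := Finset.exists_subset_card_eq hk
  have hSA : S ⊆ A := hS.trans (Finset.filter_subset _ _)
  rw [← Finset.prod_sdiff hSA, ← Finset.prod_sdiff (f := fun x => l x + m) hSA]
  have h1 : ∏ x ∈ A \ S, l x ≤ ∏ x ∈ A \ S, (l x + m) :=
    Finset.prod_le_prod' fun x _ => Nat.le_add_right _ _
  have h2 : (∏ x ∈ S, l x) * (t + m) ^ k ≤ t ^ k * ∏ x ∈ S, (l x + m) := by
    rw [← hSk, ← Finset.prod_const, ← Finset.prod_const, ← Finset.prod_mul_distrib,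
      ← Finset.prod_mul_distrib]
    refine Finset.prod_le_prod' fun x hx => ?_
    have : l x ≤ t := (Finset.mem_filter.mp (hS hx)).2
    nlinarith
  calc (∏ x ∈ A \ S, l x) * (∏ x ∈ S, l x) * (t + m) ^ k
      = (∏ x ∈ A \ S, l x) * ((∏ x ∈ S, l x) * (t + m) ^ k) := by ring
    _ ≤ (∏ x ∈ A \ S, (l x + m)) * (t ^ k * ∏ x ∈ S, (l x + m)) := Nat.mul_le_mul h1 h2
    _ = _ := by ring

theorem shift_count {M m t k : ℕ} (E : Finset (α → ℕ)) (hE : E ⊆ Om α M)
    (hk : ∀ f ∈ E, k ≤ (A.filter fun x => len M f x ≤ t).card) :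
    E.card * (t + m) ^ k ≤ t ^ k * (Om α (M + m)).card := by
  set H := E.image (pr A) with hH
  -- upper bound for `E`
  have h1 : E.card ≤ ∑ h ∈ H, (fibE A M 0 h).card := by
    rw [Finset.card_eq_sum_card_image (pr A) E]
    refine Finset.sum_le_sum fun h _ => Finset.card_le_card fun f hf => ?_
    obtain ⟨hfE, hfh⟩ := Finset.mem_filter.mp hf
    rw [← hfh]
    exact mem_fib_self hA (hE hfE)
  -- lower bound for the larger grid
  have h2 : ∑ h ∈ H, (fibE A M m h).card ≤ (Om α (M + m)).card := by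
    rw [← Finset.card_biUnion]
    · refine Finset.card_le_card fun f hf => ?_
      obtain ⟨h, hh, hfh⟩ := Finset.mem_biUnion.mp hf
      obtain ⟨f₀, hf₀, rfl⟩ := Finset.mem_image.mp hh
      exact fibE_subset hA (hE hf₀) hfh
    · intro h hh h' hh' hne
      obtain ⟨f₀, hf₀, rfl⟩ := Finset.mem_image.mp hh
      obtain ⟨f₁, hf₁, rfl⟩ := Finset.mem_image.mp hh'
      rw [Function.onFun, Finset.disjoint_left]
      intro f hf hf'
      exact hne (eq_of_mem_fibE hA hf hf')
  have h3 : ∀ h ∈ H, (fibE A M 0 h).card * (t + m) ^ k ≤ t ^ k * (fibE A M m h).card := by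
    intro h hh
    obtain ⟨f₀, hf₀, rfl⟩ := Finset.mem_image.mp hh
    have hlo : ∀ z ∈ A, lo (pr A f₀) z ≤ hi M (pr A f₀) z := fun z hz => by
      rw [lo_pr hA hz, hi_pr hA hz]
      exact (lo_le_self (hE hf₀) z).trans (self_le_hi (hE hf₀) z)
    have e0 : (fibE A M 0 (pr A f₀)).card = ∏ z ∈ A, len M (pr A f₀) z := by
      rw [card_fibE]; rfl
    have e1 : (fibE A M m (pr A f₀)).card = ∏ z ∈ A, (len M (pr A f₀) z + m) := by
      rw [card_fibE]
      refine Finset.prod_congr rfl fun z hz => ?_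
      have := hlo z hz
      unfold len
      omega
    rw [e0, e1]
    refine prod_shift A _ k t m ((hk f₀ hf₀).trans_eq ?_)
    congr 1
    refine Finset.filter_congr fun x hx => ?_
    rw [len_pr hA hx]
  calc E.card * (t + m) ^ k ≤ (∑ h ∈ H, (fibE A M 0 h).card) * (t + m) ^ k :=
        Nat.mul_le_mul_right _ h1
    _ = ∑ h ∈ H, (fibE A M 0 h).card * (t + m) ^ k := Finset.sum_mul _ _ _
    _ ≤ ∑ h ∈ H, t ^ k * (fibE A M m h).card := Finset.sum_le_sum h3
    _ = t ^ k * ∑ h ∈ H, (fibE A M m h).card := (Finset.mul_sum _ _ _).symm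
    _ ≤ _ := Nat.mul_le_mul_left _ h2

end

theorem close_count {M t s : ℕ} (hs : 0 < s) {x y : α} (hxy : x ≠ y) :
    ((Om α M).filter fun f => t < len M f x ∧ f x / s = f y / s).card * t ≤
      s * (Om α M).card := by
  have hA : IsAntichain (· ≤ ·) (({x} : Finset α) : Set α) := by
    rw [Finset.coe_singleton]; exact Set.subsingleton_singleton.isAntichain _
  set E := (Om α M).filter fun f => t < len M f x ∧ f x / s = f y / s with hEdef
  have hE : E ⊆ Om α M := Finset.filter_subset _ _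
  set H := E.image (pr {x}) with hH
  have hyx : y ∉ ({x} : Finset α) := by simpa using hxy.symm
  have h1 : E.card ≤ ∑ h ∈ H, s := by
    rw [Finset.card_eq_sum_card_image (pr {x}) E]
    refine Finset.sum_le_sum fun h _ => ?_
    -- the value at `x` determines the map, and lies in one cell
    have hsub : ((E.filter fun f => pr {x} f = h).image fun f => f x) ⊆
        Finset.Ico (s * (h y / s)) (s * (h y / s) + s) := by
      intro v hv
      obtain ⟨f, hf, rfl⟩ := Finset.mem_image.mp hv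
      obtain ⟨hfE, hfh⟩ := Finset.mem_filter.mp hf
      obtain ⟨_, _, hcell⟩ := Finset.mem_filter.mp hfE
      have hy : h y = f y := by rw [← hfh, pr_off hyx]
      rw [hy, ← hcell, Finset.mem_Ico]
      have := Nat.div_add_mod (f x) s
      have := Nat.mod_lt (f x) hs
      omega
    have hinj : Set.InjOn (fun f : α → ℕ => f x)
        ((E.filter fun f => pr {x} f = h : Finset (α → ℕ)) : Set (α → ℕ)) := by
      intro f hf g hg hfg
      obtain ⟨_, hfh⟩ := Finset.mem_filter.mp hf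
      obtain ⟨_, hgh⟩ := Finset.mem_filter.mp hg
      funext z
      by_cases hz : z ∈ ({x} : Finset α)
      · rw [Finset.mem_singleton.mp hz]; exact hfg
      · rw [← pr_off (f := f) hz, ← pr_off (f := g) hz, hfh, hgh]
    rw [← Finset.card_image_of_injOn hinj]
    calc _ ≤ (Finset.Ico (s * (h y / s)) (s * (h y / s) + s)).card := Finset.card_le_card hsub
      _ = s := by simp
  have h2 : ∑ h ∈ H, (fibE {x} M 0 h).card ≤ (Om α M).card := by
    rw [← Finset.card_biUnion]
    · refine Finset.card_le_card fun f hf => ?_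
      obtain ⟨h, hh, hfh⟩ := Finset.mem_biUnion.mp hf
      obtain ⟨f₀, hf₀, rfl⟩ := Finset.mem_image.mp hh
      exact fibE_subset hA (m := 0) (hE hf₀) hfh
    · intro h hh h' hh' hne
      obtain ⟨f₀, hf₀, rfl⟩ := Finset.mem_image.mp hh
      obtain ⟨f₁, hf₁, rfl⟩ := Finset.mem_image.mp hh'
      rw [Function.onFun, Finset.disjoint_left]
      intro f hf hf'
      exact hne (eq_of_mem_fibE hA hf hf')
  have h3 : ∀ h ∈ H, t ≤ (fibE {x} M 0 h).card := by
    intro h hh
    obtain ⟨f₀, hf₀, rfl⟩ := Finset.mem_image.mp hh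
    obtain ⟨_, hlen, _⟩ := Finset.mem_filter.mp hf₀
    have hx : x ∈ ({x} : Finset α) := Finset.mem_singleton_self x
    rw [card_fibE, Finset.prod_singleton, lo_pr hA hx, hi_pr hA hx]
    unfold len at hlen
    omega
  calc E.card * t ≤ (∑ h ∈ H, s) * t := Nat.mul_le_mul_right _ h1
    _ = s * ∑ h ∈ H, t := by simp [Finset.sum_const]; ring
    _ ≤ s * ∑ h ∈ H, (fibE {x} M 0 h).card := Nat.mul_le_mul_left _ (Finset.sum_le_sum h3)
    _ ≤ _ := Nat.mul_le_mul_left _ h2

end Pool.Agent.TH161.LW
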