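import Mathlib
import Pool.Agent.H34.L.TH161.LW.Grid

/-!
# Linear extensions and order preserving maps to a large grid
-/

set_option autoImplicit false

open Finset Filter Topology
open scoped Classical

namespace Pool.Agent.TH161.LW

variable {α : Type*} [Fintype α]

/-- all maps to the grid -/
noncomputable def Fm (α : Type*) [Fintype α] (M : ℕ) : Finset (α → ℕ) :=
  Fintype.piFinset fun _ => range M

lemma card_Fm (M : ℕ) : (Fm α M).card = M ^ Fintype.card α := by
  simp [Fm, Fintype.card_piFinset]

/-- Injective maps to the grid are pairs of a bijection to `Fin n` and an `n`-set. -/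
theorem count_inj (Q : (α ≃ Fin (Fintype.card α)) → Prop) (Q' : (α → ℕ) → Prop)
    (hQ : ∀ (σ : α ≃ Fin (Fintype.card α)) (e : Fin (Fintype.card α) ↪o ℕ),
      Q σ ↔ Q' (fun z => e (σ z))) (M : ℕ) :
    ((Fm α M).filter fun f => Function.Injective f ∧ Q' f).card =
      (univ.filter Q).card * M.choose (Fintype.card α) := by
  have hpc : M.choose (Fintype.card α) = (powersetCard (Fintype.card α) (range M)).card := by simp
  rw [hpc, ← Finset.card_product]
  symm
  refine Finset.card_bij
    (fun p hp => fun z => p.2.orderEmbOfFin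
      (Finset.mem_powersetCard.mp (Finset.mem_product.mp hp).2).2 (p.1 z)) ?_ ?_ ?_
  · rintro ⟨σ, t⟩ hp
    obtain ⟨hσ, ht⟩ := Finset.mem_product.mp hp
    obtain ⟨ht1, ht2⟩ := Finset.mem_powersetCard.mp ht
    rw [Finset.mem_filter]
    refine ⟨?_, ?_, ?_⟩
    · unfold Fm
      rw [Fintype.mem_piFinset]
      exact fun z => ht1 (Finset.orderEmbOfFin_mem t ht2 (σ z))
    · exact (t.orderEmbOfFin ht2).injective.comp σ.injective
    · exact (hQ σ (t.orderEmbOfFin ht2)).mp (Finset.mem_filter.mp hσ).2
  · rintro ⟨σ, t⟩ hp ⟨σ', t'⟩ hp' heq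
    obtain ⟨hσ, ht⟩ := Finset.mem_product.mp hp
    obtain ⟨hσ', ht'⟩ := Finset.mem_product.mp hp'
    have ht2 := (Finset.mem_powersetCard.mp ht).2
    have ht2' := (Finset.mem_powersetCard.mp ht').2
    have h1 : Set.range (fun z => t.orderEmbOfFin ht2 (σ z)) = (t : Set ℕ) := by
      have : (fun z => t.orderEmbOfFin ht2 (σ z)) = (t.orderEmbOfFin ht2) ∘ σ := rfl
      rw [this, Set.range_comp, σ.surjective.range_eq, Set.image_univ,
        Finset.range_orderEmbOfFin]
    have h2 : Set.range (fun z => t'.orderEmbOfFin ht2' (σ' z)) = (t' : Set ℕ) := by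
      have : (fun z => t'.orderEmbOfFin ht2' (σ' z)) = (t'.orderEmbOfFin ht2') ∘ σ' := rfl
      rw [this, Set.range_comp, σ'.surjective.range_eq, Set.image_univ,
        Finset.range_orderEmbOfFin]
    have htt : t = t' := by
      have : (t : Set ℕ) = (t' : Set ℕ) := by rw [← h1, ← h2, heq]
      exact_mod_cast this
    subst htt
    have hσσ : σ = σ' := by
      ext z
      have := congrFun heq z
      simp only at this
      have := (t.orderEmbOfFin ht2).injective this
      rw [this]
    rw [hσσ]
  · intro f hf
    obtain ⟨hfF, hinj, hQf⟩ := Finset.mem_filter.mp hf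
    unfold Fm at hfF
    rw [Fintype.mem_piFinset] at hfF
    set t : Finset ℕ := univ.image f with ht
    have ht2 : t.card = Fintype.card α := by
      rw [ht, Finset.card_image_of_injective _ hinj, Finset.card_univ]
    have hmem : ∀ z, f z ∈ t := fun z => Finset.mem_image_of_mem f (Finset.mem_univ z)
    let g : α → t := fun z => ⟨f z, hmem z⟩
    have hg : Function.Bijective g := by
      constructor
      · intro a b hab
        exact hinj (congrArg Subtype.val hab)
      · rintro ⟨v, hv⟩
        obtain ⟨z, _, hz⟩ := Finset.mem_image.mp hv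
        exact ⟨z, Subtype.ext hz⟩
    let σ : α ≃ Fin (Fintype.card α) := (Equiv.ofBijective g hg).trans (t.orderIsoOfFin ht2).symm.toEquiv
    have hσ : ∀ z, t.orderEmbOfFin ht2 (σ z) = f z := by
      intro z
      rw [← Finset.coe_orderIsoOfFin_apply]
      have : (t.orderIsoOfFin ht2) (σ z) = g z := by
        show (t.orderIsoOfFin ht2) ((t.orderIsoOfFin ht2).symm (g z)) = g z
        simp
      rw [this]
    have hfun : (fun z => t.orderEmbOfFin ht2 (σ z)) = f := funext hσ
    have hmemt : t ∈ powersetCard (Fintype.card α) (range M) := by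
      rw [Finset.mem_powersetCard]
      refine ⟨?_, ht2⟩
      intro v hv
      obtain ⟨z, _, hz⟩ := Finset.mem_image.mp hv
      rw [← hz]; exact hfF z
    have hQσ : Q σ := (hQ σ (t.orderEmbOfFin ht2)).mpr (by rw [hfun]; exact hQf)
    exact ⟨(σ, t), Finset.mem_product.mpr ⟨Finset.mem_filter.mpr ⟨Finset.mem_univ _, hQσ⟩, hmemt⟩,
      hfun⟩

/-- number of linear extensions -/
noncomputable def eN (α : Type*) [Fintype α] [PartialOrder α] : ℕ :=
  Nat.card {σ : α ≃ Fin (Fintype.card α) // StrictMono ⇑σ}

/-- number of linear extensions with `x` before `y` -/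
noncomputable def eP (α : Type*) [Fintype α] [PartialOrder α] (x y : α) : ℕ :=
  Nat.card {σ : α ≃ Fin (Fintype.card α) // StrictMono ⇑σ ∧ σ x < σ y}

variable [PartialOrder α]

lemma eN_eq : eN α = (univ.filter fun σ : α ≃ Fin (Fintype.card α) => StrictMono ⇑σ).card := by
  unfold eN
  rw [Nat.card_eq_fintype_card, Fintype.card_subtype]

lemma eP_eq (x y : α) : eP α x y =
    (univ.filter fun σ : α ≃ Fin (Fintype.card α) => StrictMono ⇑σ ∧ σ x < σ y).card := by
  unfold eP
  rw [Nat.card_eq_fintype_card, Fintype.card_subtype]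

lemma eP_add {x y : α} (h : x ≠ y) : eP α x y + eP α y x = eN α := by
  rw [eP_eq, eP_eq, eN_eq, ← Finset.card_union_of_disjoint]
  · congr 1
    ext σ
    simp only [Finset.mem_union, Finset.mem_filter, Finset.mem_univ, true_and]
    constructor
    · rintro (h | h) <;> exact h.1
    · intro hs
      rcases lt_trichotomy (σ x) (σ y) with h1 | h1 | h1
      · exact Or.inl ⟨hs, h1⟩
      · exact absurd (σ.injective h1) h
      · exact Or.inr ⟨hs, h1⟩
  · rw [Finset.disjoint_left]
    intro σ h1 h2
    have h1' := (Finset.mem_filter.mp h1).2.2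
    have h2' := (Finset.mem_filter.mp h2).2.2
    exact absurd h1' (not_lt.mpr h2'.le)

lemma mono_iff (σ : α ≃ Fin (Fintype.card α)) (e : Fin (Fintype.card α) ↪o ℕ) :
    StrictMono ⇑σ ↔ Monotone (fun z => e (σ z)) := by
  constructor
  · intro h
    exact e.monotone.comp h.monotone
  · intro h a b hab
    have h1 : e (σ a) ≤ e (σ b) := h hab.le
    exact lt_of_le_of_ne (e.le_iff_le.mp h1) (fun heq => hab.ne (σ.injective heq))

lemma Om_filter_inj (M : ℕ) (Q : (α → ℕ) → Prop) :
    ((Om α M).filter fun f => Function.Injective f ∧ Q f) =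
      (Fm α M).filter fun f => Function.Injective f ∧ (Monotone f ∧ Q f) := by
  ext f
  simp only [Finset.mem_filter, Om, Fm]
  tauto

lemma card_inj (M : ℕ) : ((Om α M).filter fun f => Function.Injective f).card =
    eN α * M.choose (Fintype.card α) := by
  have h := Om_filter_inj (α := α) M (fun _ => True)
  simp only [and_true] at h
  rw [h, eN_eq (α := α)]
  have h2 := count_inj (α := α) (fun σ => StrictMono ⇑σ) (fun f => Monotone f)
    (fun σ e => mono_iff σ e) M
  convert h2

lemma card_inj_lt (M : ℕ) (x y : α) :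
    ((Om α M).filter fun f => Function.Injective f ∧ f x < f y).card =
    eP α x y * M.choose (Fintype.card α) := by
  have h1 : ((Om α M).filter fun f => Function.Injective f ∧ f x < f y) =
      (Fm α M).filter fun f => Function.Injective f ∧ (Monotone f ∧ f x < f y) := by
    ext f
    simp only [Finset.mem_filter, Om, Fm]
    tauto
  have h2 := count_inj (α := α) (fun σ => StrictMono ⇑σ ∧ σ x < σ y)
    (fun f => Monotone f ∧ f x < f y) (fun σ e => by rw [mono_iff σ e, e.lt_iff_lt]) M
  rw [h1, eP_eq (α := α)]
  convert h2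

lemma card_noninj (M : ℕ) : ((Om α M).filter fun f => ¬ Function.Injective f).card +
    (Fintype.card α).factorial * M.choose (Fintype.card α) ≤ M ^ Fintype.card α := by
  have h1 : ((Fm α M).filter fun f => Function.Injective f).card =
      (Fintype.card α).factorial * M.choose (Fintype.card α) := by
    have h := count_inj (α := α) (fun _ => True) (fun _ => True) (fun _ _ => Iff.rfl) M
    simp only [and_true] at h
    rw [h]
    congr 1
    simp [Fintype.card_equiv (Fintype.equivFin α)]
  rw [← h1, ← card_Fm (α := α) M]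
  have h2 : ((Om α M).filter fun f => ¬ Function.Injective f) ⊆
      (Fm α M).filter fun f => ¬ Function.Injective f := by
    intro f hf
    obtain ⟨h3, h4⟩ := Finset.mem_filter.mp hf
    exact Finset.mem_filter.mpr ⟨(Finset.mem_filter.mp h3).1, h4⟩
  have h3 := Finset.card_filter_add_card_filter_not (s := Fm α M)
    (fun f : α → ℕ => Function.Injective f)
  have h4 := Finset.card_le_card h2
  omega

lemma card_Om_split (M : ℕ) : (Om α M).card = eN α * M.choose (Fintype.card α) +
    ((Om α M).filter fun f => ¬ Function.Injective f).card := by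
  rw [← card_inj]
  exact (Finset.card_filter_add_card_filter_not _).symm

/-- the limit of `C(M, n) / M ^ n` -/
lemma tendsto_choose (n : ℕ) : Tendsto (fun M : ℕ => (M.choose n : ℝ) / (M : ℝ) ^ n) atTop
    (𝓝 (1 / n.factorial)) := by
  have h := isEquivalent_choose n
  have hz : ∀ᶠ (M : ℕ) in atTop, ((M : ℝ) ^ n / n.factorial : ℝ) ≠ 0 := by
    filter_upwards [eventually_gt_atTop 0] with M hM
    have : (0 : ℝ) < M := by exact_mod_cast hM
    positivity
  rw [Asymptotics.isEquivalent_iff_tendsto_one hz] at h
  have h2 := h.mul_const (1 / (n.factorial : ℝ))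
  rw [one_mul] at h2
  refine h2.congr' ?_
  filter_upwards [eventually_gt_atTop 0] with M hM
  have : (0 : ℝ) < M := by exact_mod_cast hM
  have hf : (n.factorial : ℝ) ≠ 0 := by exact_mod_cast n.factorial_ne_zero
  simp only [Pi.div_apply]
  field_simp

/-- the non-injective maps are negligible -/
lemma tendsto_noninj : Tendsto (fun M : ℕ =>
    (((Om α M).filter fun f => ¬ Function.Injective f).card : ℝ) / (M : ℝ) ^ Fintype.card α) atTop
    (𝓝 0) := by
  have h := (tendsto_choose (Fintype.card α)).const_mul ((Fintype.card α).factorial : ℝ)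
  have hf : ((Fintype.card α).factorial : ℝ) ≠ 0 := by
    exact_mod_cast (Fintype.card α).factorial_ne_zero
  rw [mul_one_div, div_self hf] at h
  have h2 : Tendsto (fun M : ℕ => 1 - ((Fintype.card α).factorial : ℝ) *
      ((M.choose (Fintype.card α) : ℝ) / (M : ℝ) ^ Fintype.card α)) atTop (𝓝 0) := by
    simpa using h.const_sub 1
  refine tendsto_of_tendsto_of_tendsto_of_le_of_le' tendsto_const_nhds h2
    (Eventually.of_forall fun M => by positivity) ?_
  filter_upwards [eventually_gt_atTop 0] with M hM
  have hM' : (0 : ℝ) < M := by exact_mod_cast hM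
  have h3 : (((Om α M).filter fun f => ¬ Function.Injective f).card : ℝ) +
    (Fintype.card α).factorial * M.choose (Fintype.card α) ≤ (M : ℝ) ^ Fintype.card α := by
    exact_mod_cast card_noninj (α := α) M
  rw [div_le_iff₀ (by positivity), sub_mul, one_mul, mul_assoc, div_mul_cancel₀ _ (by positivity)]
  linarith

lemma tendsto_Om : Tendsto (fun M : ℕ => ((Om α M).card : ℝ) / (M : ℝ) ^ Fintype.card α) atTop
    (𝓝 ((eN α : ℝ) * (1 / (Fintype.card α).factorial))) := by
  have h := ((tendsto_choose (Fintype.card α)).const_mul (eN α : ℝ)).add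
    (tendsto_noninj (α := α))
  rw [add_zero] at h
  refine h.congr fun M => ?_
  rw [card_Om_split (α := α) M]
  push_cast
  ring

end Pool.Agent.TH161.LW
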