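import Mathlib
import Pool.Agent.H34.L.TH161.LW.Cells
import Pool.Agent.H34.L.TH161.LW.Count

/-!
# Balanced pairs in large antichains
-/

set_option autoImplicit false

open Finset Filter Topology
open scoped Classical

namespace Pool.Agent.TH161.LW

variable {α : Type*} [Fintype α] [PartialOrder α]

/-- choice of the grid -/
lemma exists_grid (he : 0 < eN α) (b q : ℕ) :
    ∃ M₀ : ℕ, 1 ≤ M₀ ∧
      ((Om α (2 ^ (2 * b + q + 5) * M₀ + 2 ^ (b + 5) * M₀)).card : ℝ) ≤
        2 * (1 + 1 / 2 ^ (b + q)) ^ Fintype.card α * (Om α (2 ^ (2 * b + q + 5) * M₀)).card ∧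
      (((Om α (2 ^ (2 * b + q + 5) * M₀)).filter fun f => ¬ Function.Injective f).card : ℝ) ≤
        1 / 2 ^ b * (Om α (2 ^ (2 * b + q + 5) * M₀)).card := by
  set n := Fintype.card α with hn
  set L : ℝ := (eN α : ℝ) * (1 / n.factorial) with hL
  have hLpos : 0 < L := by
    have h1 : (0 : ℝ) < eN α := by exact_mod_cast he
    have h2 : (0 : ℝ) < n.factorial := by exact_mod_cast n.factorial_pos
    positivity
  have hT1 : Tendsto (fun M₀ : ℕ => 2 ^ (2 * b + q + 5) * M₀) atTop atTop :=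
    Filter.tendsto_atTop_mono (fun k => Nat.le_mul_of_pos_left k (by positivity)) tendsto_id
  have hT2 : Tendsto (fun M₀ : ℕ => 2 ^ (2 * b + q + 5) * M₀ + 2 ^ (b + 5) * M₀) atTop atTop :=
    Filter.tendsto_atTop_mono (fun k => Nat.le_add_right _ _) hT1
  have hOm := tendsto_Om (α := α)
  have hNI := tendsto_noninj (α := α)
  have h1 := (hOm.comp hT1).eventually (lt_mem_nhds (show 3 / 4 * L < L by linarith))
  have h2 := (hOm.comp hT2).eventually (gt_mem_nhds (show L < 5 / 4 * L by linarith))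
  have h3 := (hNI.comp hT1).eventually
    (gt_mem_nhds (show (0 : ℝ) < 1 / 2 ^ b * (3 / 4 * L) by positivity))
  obtain ⟨M₀, h1, h2, h3, hM⟩ := (h1.and (h2.and (h3.and (eventually_ge_atTop 1)))).exists
  refine ⟨M₀, hM, ?_, ?_⟩
  · simp only [Function.comp] at h1 h2
    have hM' : (0 : ℝ) < M₀ := by exact_mod_cast hM
    set P : ℕ := 2 ^ (2 * b + q + 5) * M₀ with hP
    have hPpos : (0 : ℝ) < (P : ℝ) := by rw [hP]; push_cast; positivity
    have hP2 : ((P + 2 ^ (b + 5) * M₀ : ℕ) : ℝ) = P * (1 + 1 / 2 ^ (b + q)) := by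
      rw [hP]
      push_cast
      have e1 : (2 : ℝ) ^ (2 * b + q + 5) = 2 ^ (b + q) * 2 ^ (b + 5) := by
        rw [← pow_add]; congr 1; ring
      rw [e1]
      field_simp
    rw [hP2, mul_pow] at h2
    rw [div_lt_iff₀ (by positivity)] at h2
    rw [lt_div_iff₀ (by positivity)] at h1
    have hc : (0 : ℝ) < (1 + 1 / 2 ^ (b + q)) ^ n := by positivity
    nlinarith [mul_lt_mul_of_pos_right h1 hc]
  · simp only [Function.comp] at h1 h3
    have hM' : (0 : ℝ) < M₀ := by exact_mod_cast hM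
    set P : ℕ := 2 ^ (2 * b + q + 5) * M₀ with hP
    have hPpos : (0 : ℝ) < (P : ℝ) := by rw [hP]; push_cast; positivity
    rw [div_lt_iff₀ (by positivity)] at h3
    rw [lt_div_iff₀ (by positivity)] at h1
    have hb : (0 : ℝ) < 1 / 2 ^ b := by positivity
    nlinarith [mul_lt_mul_of_pos_left h1 hb]

/-- few maps are tight at many elements of the antichain -/
lemma few_bad {A : Finset α} (hA : IsAntichain (· ≤ ·) (A : Set α)) (b q M₀ : ℕ) (hM₀ : 1 ≤ M₀)
    (hn : Fintype.card α ≤ 2 ^ q * A.card) (hw : 2 ^ b * (b + 1) ≤ A.card)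
    (h : ((Om α (2 ^ (2 * b + q + 5) * M₀ + 2 ^ (b + 5) * M₀)).card : ℝ) ≤
        2 * (1 + 1 / 2 ^ (b + q)) ^ Fintype.card α * (Om α (2 ^ (2 * b + q + 5) * M₀)).card) :
    2 ^ b * ((Om α (2 ^ (2 * b + q + 5) * M₀)).filter fun f => A.card ≤ 2 ^ b *
      (A.filter fun x => len (2 ^ (2 * b + q + 5) * M₀) f x ≤ 2 ^ b * M₀).card).card ≤
      (Om α (2 ^ (2 * b + q + 5) * M₀)).card := by
  set M := 2 ^ (2 * b + q + 5) * M₀ with hM
  set t := 2 ^ b * M₀ with ht
  set E := (Om α M).filter fun f => A.card ≤ 2 ^ b * (A.filter fun x => len M f x ≤ t).card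
    with hE
  have hbp : 0 < 2 ^ b := by positivity
  set k := (A.card + 2 ^ b - 1) / 2 ^ b with hk
  have hk1 : ∀ f ∈ E, k ≤ (A.filter fun x => len M f x ≤ t).card := by
    intro f hf
    have h1 := (Finset.mem_filter.mp hf).2
    rw [hk]
    rw [Nat.div_le_iff_le_mul_add_pred hbp]
    omega
  have hk2 : A.card ≤ 2 ^ b * k := by
    have := Nat.div_add_mod (A.card + 2 ^ b - 1) (2 ^ b)
    have := Nat.mod_lt (A.card + 2 ^ b - 1) hbp
    rw [hk]
    omega
  have hk3 : b + 1 ≤ k := by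
    have : 2 ^ b * (b + 1) ≤ 2 ^ b * k := hw.trans hk2
    exact Nat.le_of_mul_le_mul_left this hbp
  have hm : 2 ^ (b + 5) * M₀ = 32 * t := by rw [ht]; ring
  have h1 := shift_count hA (M := M) (m := 32 * t) (t := t) (k := k) E (Finset.filter_subset _ _) hk1
  rw [← hm] at h1
  have htpos : 0 < t := by rw [ht]; positivity
  have h2 : E.card * 33 ^ k ≤ (Om α (M + 2 ^ (b + 5) * M₀)).card := by
    have e1 : t + 2 ^ (b + 5) * M₀ = 33 * t := by rw [hm]; ring
    rw [e1, mul_pow] at h1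
    have : t ^ k * (E.card * 33 ^ k) ≤ t ^ k * (Om α (M + 2 ^ (b + 5) * M₀)).card := by
      calc t ^ k * (E.card * 33 ^ k) = E.card * (33 ^ k * t ^ k) := by ring
        _ ≤ _ := h1
    exact Nat.le_of_mul_le_mul_left this (by positivity)
  have h3 : (E.card : ℝ) * 33 ^ k ≤ 2 * 3 ^ k * (Om α M).card := by
    have h4 : (E.card : ℝ) * 33 ^ k ≤ ((Om α (M + 2 ^ (b + 5) * M₀)).card : ℝ) := by
      exact_mod_cast h2
    refine (h4.trans h).trans ?_
    have h5 : (1 + 1 / (2 : ℝ) ^ (b + q)) ^ Fintype.card α ≤ 3 ^ k := by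
      have e1 : 1 + 1 / (2 : ℝ) ^ (b + q) ≤ Real.exp (1 / 2 ^ (b + q)) := by
        have := Real.add_one_le_exp (1 / (2 : ℝ) ^ (b + q))
        linarith
      have e2 : (Fintype.card α : ℝ) * (1 / 2 ^ (b + q)) ≤ k := by
        have e3 : (Fintype.card α : ℝ) ≤ 2 ^ q * (2 ^ b * k) := by
          exact_mod_cast hn.trans (Nat.mul_le_mul_left _ hk2)
        rw [mul_one_div, div_le_iff₀ (by positivity)]
        calc (Fintype.card α : ℝ) ≤ 2 ^ q * (2 ^ b * k) := e3
          _ = k * 2 ^ (b + q) := by rw [pow_add]; ring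
      have e4 : Real.exp 1 ≤ 3 := by
        have := Real.exp_one_lt_d9
        linarith
      calc (1 + 1 / (2 : ℝ) ^ (b + q)) ^ Fintype.card α
          ≤ (Real.exp (1 / 2 ^ (b + q))) ^ Fintype.card α :=
            pow_le_pow_left₀ (by positivity) e1 _
        _ = Real.exp ((Fintype.card α : ℝ) * (1 / 2 ^ (b + q))) := by rw [← Real.exp_nat_mul]
        _ ≤ Real.exp (k : ℝ) := Real.exp_le_exp.mpr e2
        _ = (Real.exp 1) ^ k := by rw [← Real.exp_nat_mul, mul_one]
        _ ≤ 3 ^ k := pow_le_pow_left₀ (Real.exp_pos _).le e4 _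
    gcongr
  have h6 : (E.card : ℝ) * 11 ^ k ≤ 2 * (Om α M).card := by
    have e1 : (33 : ℝ) ^ k = 3 ^ k * 11 ^ k := by rw [← mul_pow]; norm_num
    rw [e1] at h3
    have e2 : (3 : ℝ) ^ k * (E.card * 11 ^ k) ≤ 3 ^ k * (2 * (Om α M).card) := by
      calc (3 : ℝ) ^ k * (E.card * 11 ^ k) = E.card * (3 ^ k * 11 ^ k) := by ring
        _ ≤ _ := h3
        _ = _ := by ring
    exact le_of_mul_le_mul_left e2 (by positivity)
  have h7 : (2 : ℝ) ^ (b + 1) ≤ 11 ^ k := by
    calc (2 : ℝ) ^ (b + 1) ≤ 2 ^ k := pow_le_pow_right₀ (by norm_num) hk3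
      _ ≤ 11 ^ k := pow_le_pow_left₀ (by norm_num) (by norm_num) _
  have h8 : (E.card : ℝ) * 2 ^ (b + 1) ≤ 2 * (Om α M).card :=
    (mul_le_mul_of_nonneg_left h7 (by positivity)).trans h6
  have h9 : (2 : ℝ) ^ b * E.card ≤ (Om α M).card := by
    rw [pow_succ] at h8
    linarith
  exact_mod_cast h9

/-- at least half of the elements of the antichain are rarely tight -/
lemma many_good {A : Finset α} (b M t : ℕ) (hOm : 0 < (Om α M).card)
    (h : 2 ^ b * ((Om α M).filter fun f => A.card ≤ 2 ^ b *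
      (A.filter fun x => len M f x ≤ t).card).card ≤ (Om α M).card) :
    A.card ≤ 2 * (A.filter fun x => 2 ^ b * ((Om α M).filter fun f => len M f x ≤ t).card ≤
      4 * (Om α M).card).card := by
  set O := (Om α M).card with hO
  set N : α → ℕ := fun x => ((Om α M).filter fun f => len M f x ≤ t).card with hN
  -- double counting
  have h1 : ∑ x ∈ A, N x = ∑ f ∈ Om α M, (A.filter fun x => len M f x ≤ t).card := by
    simp only [hN, Finset.card_filter]
    exact Finset.sum_comm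
  have h2 : 2 ^ b * ∑ x ∈ A, N x ≤ 2 * (A.card * O) := by
    rw [h1, Finset.mul_sum]
    have h3 : ∀ f ∈ Om α M, 2 ^ b * (A.filter fun x => len M f x ≤ t).card ≤
        A.card + (if A.card ≤ 2 ^ b * (A.filter fun x => len M f x ≤ t).card then
          2 ^ b * A.card else 0) := by
      intro f _
      split_ifs with hc
      · have : (A.filter fun x => len M f x ≤ t).card ≤ A.card := Finset.card_filter_le _ _
        have := Nat.mul_le_mul_left (2 ^ b) this
        omega
      · omega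
    refine (Finset.sum_le_sum h3).trans ?_
    rw [Finset.sum_add_distrib, Finset.sum_const, ← Finset.sum_filter, Finset.sum_const,
      smul_eq_mul, smul_eq_mul]
    have h4 := Nat.mul_le_mul_right A.card h
    nlinarith
  set S := A.filter fun x => 2 ^ b * N x ≤ 4 * O with hS
  set T := A.filter fun x => ¬ 2 ^ b * N x ≤ 4 * O with hT
  have hST : S.card + T.card = A.card := Finset.card_filter_add_card_filter_not _
  have h5 : T.card * (4 * O) ≤ 2 ^ b * ∑ x ∈ A, N x := by
    calc T.card * (4 * O) = ∑ x ∈ T, 4 * O := by simp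
      _ ≤ ∑ x ∈ T, 2 ^ b * N x := Finset.sum_le_sum fun x hx => by
          have := (Finset.mem_filter.mp hx).2
          omega
      _ = 2 ^ b * ∑ x ∈ T, N x := (Finset.mul_sum _ _ _).symm
      _ ≤ 2 ^ b * ∑ x ∈ A, N x := Nat.mul_le_mul_left _
          (Finset.sum_le_sum_of_subset (Finset.filter_subset _ _))
  have h6 : 2 * T.card ≤ A.card := by
    have : (2 * T.card) * (2 * O) ≤ A.card * (2 * O) := by nlinarith
    exact Nat.le_of_mul_le_mul_right this (by omega)
  change A.card ≤ 2 * S.card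
  omega

/-- number of maps with both values in the same cell -/
lemma same_cell {x y : α} (hxy : x ≠ y) (b M M₀ : ℕ) (hM₀ : 0 < M₀)
    (hx : 2 ^ b * ((Om α M).filter fun f => len M f x ≤ 2 ^ b * M₀).card ≤ 4 * (Om α M).card) :
    2 ^ b * ((Om α M).filter fun f => f x / M₀ = f y / M₀).card ≤ 5 * (Om α M).card := by
  have h1 := close_count (M := M) (t := 2 ^ b * M₀) (s := M₀) hM₀ hxy
  have h2 : ((Om α M).filter fun f => f x / M₀ = f y / M₀).card ≤
      ((Om α M).filter fun f => len M f x ≤ 2 ^ b * M₀).card +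
      ((Om α M).filter fun f => 2 ^ b * M₀ < len M f x ∧ f x / M₀ = f y / M₀).card := by
    refine (Finset.card_le_card ?_).trans (Finset.card_union_le _ _)
    intro f hf
    obtain ⟨h3, h4⟩ := Finset.mem_filter.mp hf
    by_cases h5 : len M f x ≤ 2 ^ b * M₀
    · exact Finset.mem_union_left _ (Finset.mem_filter.mpr ⟨h3, h5⟩)
    · exact Finset.mem_union_right _ (Finset.mem_filter.mpr ⟨h3, by omega, h4⟩)
  have h6 : 2 ^ b * ((Om α M).filter fun f => 2 ^ b * M₀ < len M f x ∧ f x / M₀ = f y / M₀).card ≤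
      (Om α M).card := by
    have : M₀ * (2 ^ b * ((Om α M).filter
        fun f => 2 ^ b * M₀ < len M f x ∧ f x / M₀ = f y / M₀).card) ≤ M₀ * (Om α M).card := by
      calc _ = ((Om α M).filter
            fun f => 2 ^ b * M₀ < len M f x ∧ f x / M₀ = f y / M₀).card * (2 ^ b * M₀) := by ring
        _ ≤ _ := h1
    exact Nat.le_of_mul_le_mul_left this hM₀
  have h7 := Nat.mul_le_mul_left (2 ^ b) h2
  rw [Nat.mul_add] at h7
  omega

end Pool.Agent.TH161.LW
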