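import Mathlib
import Pool.Agent.H34.L.TH161.LW.Grid

/-!
# The window of an antichain

For an antichain `A` the elements of `LL A` are below all elements of `A`, those of `UU A` above all
elements of `A`, and `KK A` is the set of the other elements.  In a random order preserving map to the
grid the distance between `LL A` and `UU A` is rarely large.
-/

set_option autoImplicit false

open Finset
open scoped Classical

namespace Pool.Agent.TH161.LW

variable {α : Type*} [Fintype α] [PartialOrder α]

/-- elements below all elements of `A` -/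
noncomputable def LL (A : Finset α) : Finset α := univ.filter fun z => ∀ x ∈ A, z < x

/-- elements above all elements of `A` -/
noncomputable def UU (A : Finset α) : Finset α := univ.filter fun z => ∀ x ∈ A, x < z

/-- the other elements -/
noncomputable def KK (A : Finset α) : Finset α :=
  univ.filter fun z => ¬ (∀ x ∈ A, z < x) ∧ ¬ (∀ x ∈ A, x < z)

/-- lower end of the window -/
noncomputable def lo0 (A : Finset α) (f : α → ℕ) : ℕ := (LL A).sup f

/-- upper end of the window -/
noncomputable def hi0 (A : Finset α) (M : ℕ) (f : α → ℕ) : ℕ :=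
  (insert (M - 1) ((UU A).image f)).min' (Finset.insert_nonempty _ _)

lemma lo0_le {A : Finset α} {f : α → ℕ} {v : ℕ} : lo0 A f ≤ v ↔ ∀ d ∈ LL A, f d ≤ v := by
  simp [lo0, Finset.sup_le_iff]

lemma le_hi0 {A : Finset α} {M : ℕ} {f : α → ℕ} {v : ℕ} :
    v ≤ hi0 A M f ↔ v ≤ M - 1 ∧ ∀ u ∈ UU A, v ≤ f u := by
  unfold hi0
  rw [Finset.le_min'_iff]
  simp

lemma lo0_le_self {A : Finset α} {M : ℕ} {f : α → ℕ} (hf : f ∈ Om α M) {x : α} (hx : x ∈ A) :
    lo0 A f ≤ f x :=
  lo0_le.mpr fun d hd => (mem_Om.mp hf).2 ((Finset.mem_filter.mp hd).2 x hx).le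

lemma self_le_hi0 {A : Finset α} {M : ℕ} {f : α → ℕ} (hf : f ∈ Om α M) {x : α} (hx : x ∈ A) :
    f x ≤ hi0 A M f :=
  le_hi0.mpr ⟨by have := (mem_Om.mp hf).1 x; omega,
    fun u hu => (mem_Om.mp hf).2 ((Finset.mem_filter.mp hu).2 x hx).le⟩

/-- compression of the window by `d` -/
def th (d l v : ℕ) : ℕ := v - min d ((v - l + 1) / 2)

lemma th_mono (d l : ℕ) {v v' : ℕ} (h : v ≤ v') : th d l v ≤ th d l v' := by
  unfold th
  rcases le_total d ((v - l + 1) / 2) with h1 | h1 <;>
  rcases le_total d ((v' - l + 1) / 2) with h2 | h2 <;>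
  simp only [min_eq_left h1, min_eq_right h1, min_eq_left h2, min_eq_right h2] <;> omega

lemma th_inj (d l : ℕ) {v v' : ℕ} (h : th d l v = th d l v') (hp : v % 2 = v' % 2) : v = v' := by
  unfold th at h
  rcases le_total d ((v - l + 1) / 2) with h1 | h1 <;>
  rcases le_total d ((v' - l + 1) / 2) with h2 | h2 <;>
  simp only [min_eq_left h1, min_eq_right h1, min_eq_left h2, min_eq_right h2] at h <;> omega

lemma th_low {d l v : ℕ} (h : v ≤ l) : th d l v = v := by
  unfold th
  have : (v - l + 1) / 2 = 0 := by omega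
  rw [this]; simp

lemma th_high {d l v : ℕ} (h : l + 2 * d ≤ v) : th d l v = v - d := by
  unfold th
  have : d ≤ (v - l + 1) / 2 := by omega
  rw [min_eq_left this]

theorem window_count (A : Finset α) (M d : ℕ) :
    ((Om α M).filter fun f => lo0 A f + 2 * d ≤ hi0 A M f).card ≤
      2 ^ (KK A).card * (Om α (M - d)).card := by
  set E := (Om α M).filter fun f => lo0 A f + 2 * d ≤ hi0 A M f with hE
  have hcard : 2 ^ (KK A).card * (Om α (M - d)).card =
      ((Om α (M - d)) ×ˢ (KK A).powerset).card := by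
    rw [Finset.card_product, Finset.card_powerset, mul_comm]
  rw [hcard]
  refine Finset.card_le_card_of_injOn
    (fun f => (fun z => th d (lo0 A f) (f z), (KK A).filter fun z => f z % 2 = 1)) ?_ ?_
  · intro f hf
    obtain ⟨hfO, hfw⟩ := Finset.mem_filter.mp hf
    obtain ⟨h1, h2⟩ := mem_Om.mp hfO
    rw [Finset.mem_coe, Finset.mem_product]
    refine ⟨mem_Om.mpr ⟨fun z => ?_, fun z z' hz => th_mono _ _ (h2 hz)⟩,
      Finset.mem_powerset.mpr (Finset.filter_subset _ _)⟩
    have h3 : hi0 A M f ≤ M - 1 := (le_hi0.mp le_rfl).1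
    have h4 := h1 z
    have h5 : th d (lo0 A f) (f z) ≤ th d (lo0 A f) (M - 1) := th_mono _ _ (by omega)
    have h6 : th d (lo0 A f) (M - 1) = M - 1 - d := th_high (by omega)
    show th d (lo0 A f) (f z) < M - d
    omega
  · intro f hf f' hf' heq
    obtain ⟨hfO, hfw⟩ := Finset.mem_filter.mp hf
    obtain ⟨hfO', hfw'⟩ := Finset.mem_filter.mp hf'
    simp only [Prod.mk.injEq] at heq
    obtain ⟨heq1, heq2⟩ := heq
    have hlow : ∀ g : α → ℕ, ∀ z ∈ LL A, th d (lo0 A g) (g z) = g z := fun g z hz =>
      th_low (lo0_le.mp (le_refl (lo0 A g)) z hz)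
    have hL : ∀ z ∈ LL A, f z = f' z := by
      intro z hz
      have := congrFun heq1 z
      rw [hlow f z hz, hlow f' z hz] at this
      exact this
    have hl : lo0 A f = lo0 A f' := by
      unfold lo0
      exact Finset.sup_congr rfl hL
    have hhigh : ∀ g : α → ℕ, lo0 A g + 2 * d ≤ hi0 A M g → ∀ z ∈ UU A,
        th d (lo0 A g) (g z) = g z - d ∧ d ≤ g z := by
      intro g hg z hz
      have h1 := (le_hi0.mp (le_refl (hi0 A M g))).2 z hz
      exact ⟨th_high (by omega), by omega⟩
    funext z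
    by_cases hzL : z ∈ LL A
    · exact hL z hzL
    by_cases hzU : z ∈ UU A
    · have h1 := congrFun heq1 z
      obtain ⟨h2, h3⟩ := hhigh f hfw z hzU
      obtain ⟨h4, h5⟩ := hhigh f' hfw' z hzU
      rw [h2, h4] at h1
      omega
    have hzK : z ∈ KK A := by
      unfold LL at hzL
      unfold UU at hzU
      unfold KK
      simp only [Finset.mem_filter, Finset.mem_univ, true_and] at hzL hzU ⊢
      exact ⟨hzL, hzU⟩
    have h1 := congrFun heq1 z
    rw [hl] at h1
    refine th_inj d _ h1 ?_
    have h2 : z ∈ (KK A).filter (fun z => f z % 2 = 1) ↔ z ∈ (KK A).filter (fun z => f' z % 2 = 1) := by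
      rw [heq2]
    simp only [Finset.mem_filter, hzK, true_and] at h2
    omega

end Pool.Agent.TH161.LW
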